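import Mathlib

set_option autoImplicit false

open Filter Topology Set

namespace Pool.Agent.H538R3.CB

/-- Combinatorial form of a non-meager P-filter on `ℕ` (containing all cofinite sets). -/
structure NMP (L : Filter ℕ) : Prop where
  neBot : L.NeBot
  le : L ≤ Filter.atTop
  pseudo : ∀ s : ℕ → Set ℕ, (∀ n, s n ∈ L) → ∃ P ∈ L, ∀ n, ∀ᶠ k in atTop, k ∈ P → k ∈ s n
  nm : ∀ μ : ℕ → ℕ, ∃ E ∈ L, ∃ᶠ k in atTop, ∀ j, k ≤ j → j < μ k → j ∉ E

/-- Step 1: from meagre relations to open dense sets. -/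
lemma exists_open_dense_seq {Y : Type*} [TopologicalSpace Y] {R : Set Y} (hR : IsMeagre R) :
    ∃ G : ℕ → Set Y, (∀ i, IsOpen (G i)) ∧ (∀ i, Dense (G i)) ∧ ∀ y ∈ R, ∃ i, y ∉ G i := by
  rw [IsMeagre, mem_residual_iff] at hR
  obtain ⟨S, ho, hd, hc, hs⟩ := hR
  obtain ⟨G, hG⟩ := (hc.insert univ).exists_eq_range (insert_nonempty _ _)
  have hmem : ∀ i, G i = univ ∨ G i ∈ S := by
    intro i
    have : G i ∈ insert univ S := hG ▸ mem_range_self i
    simpa using this
  refine ⟨G, ?_, ?_, ?_⟩
  · intro i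
    rcases hmem i with h | h
    · rw [h]; exact isOpen_univ
    · exact ho _ h
  · intro i
    rcases hmem i with h | h
    · rw [h]; exact dense_univ
    · exact hd _ h
  · intro y hy
    by_contra hcon
    push Not at hcon
    have : y ∈ ⋂₀ S := by
      intro t ht
      have : t ∈ range G := hG ▸ mem_insert_of_mem _ ht
      obtain ⟨i, rfl⟩ := this
      exact hcon i
    exact hs this hy

/-- For `σ` injective and `G` dense open, `{x : ℕ → X | x ∘ σ ∈ G}` is dense. -/
lemma dense_comp {X : Type*} [TopologicalSpace X] {m : ℕ} {G : Set (Fin m → X)} (hG : Dense G)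
    {σ : Fin m → ℕ} (hσ : Function.Injective σ) :
    Dense {x : ℕ → X | (fun l => x (σ l)) ∈ G} := by
  rw [dense_iff_inter_open]
  rintro U hU ⟨x0, hx0⟩
  let e : (Fin m → X) → (ℕ → X) := fun y => Function.extend σ y x0
  have hec : Continuous e := by
    refine continuous_pi fun n => ?_
    by_cases h : ∃ l, σ l = n
    · obtain ⟨l, rfl⟩ := h
      have : (fun y : Fin m → X => e y (σ l)) = fun y => y l := by
        funext y
        exact hσ.extend_apply y x0 l
      rw [this]
      exact continuous_apply l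
    · have : (fun y : Fin m → X => e y n) = fun _ => x0 n := by
        funext y
        exact Function.extend_apply' y x0 n h
      rw [this]
      exact continuous_const
  have h0 : e (fun l => x0 (σ l)) = x0 := by
    funext n
    by_cases h : ∃ l, σ l = n
    · obtain ⟨l, rfl⟩ := h
      exact hσ.extend_apply _ x0 l
    · exact Function.extend_apply' _ x0 n h
  obtain ⟨y, hy1, hy2⟩ := (dense_iff_inter_open.1 hG) (e ⁻¹' U) (hU.preimage hec)
    ⟨fun l => x0 (σ l), by rw [mem_preimage, h0]; exact hx0⟩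
  refine ⟨e y, hy1, ?_⟩
  show (fun l => e y (σ l)) ∈ G
  have : (fun l => e y (σ l)) = y := by
    funext l
    exact hσ.extend_apply y x0 l
  rw [this]; exact hy2

/-- Existence of a dense sequence all of whose injective subtuples lie in all the `G k i`. -/
lemma exists_free_dense_seq (X : Type*) [TopologicalSpace X] [PolishSpace X] [Nonempty X]
    (n : ℕ → ℕ) (G : ∀ k : ℕ, ℕ → Set (Fin (n k) → X)) (hGo : ∀ k i, IsOpen (G k i))
    (hGd : ∀ k i, Dense (G k i)) :
    ∃ d : ℕ → X, Dense (range d) ∧ ∀ k i (σ : Fin (n k) → ℕ), Function.Injective σ →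
      (fun l => d (σ l)) ∈ G k i := by
  classical
  have h1 : Dense (⋂ p : (Σ k : ℕ, ℕ × {σ : Fin (n k) → ℕ // Function.Injective σ}),
      {x : ℕ → X | (fun l => x (p.2.2.1 l)) ∈ G p.1 p.2.1}) := by
    refine dense_iInter_of_isOpen ?_ ?_
    · intro p
      refine (hGo _ _).preimage ?_
      exact continuous_pi fun l => continuous_apply _
    · intro p
      exact dense_comp (hGd _ _) p.2.2.2
  have h1' : (⋂ p : (Σ k : ℕ, ℕ × {σ : Fin (n k) → ℕ // Function.Injective σ}),
      {x : ℕ → X | (fun l => x (p.2.2.1 l)) ∈ G p.1 p.2.1}) ∈ residual (ℕ → X) := by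
    rw [countable_iInter_mem]
    intro p
    refine residual_of_dense_open ?_ (dense_comp (hGd _ _) p.2.2.2)
    refine (hGo _ _).preimage ?_
    exact continuous_pi fun l => continuous_apply _
  have h2' : (⋂ U : TopologicalSpace.countableBasis X, {x : ℕ → X | ∃ j, x j ∈ U.1}) ∈
      residual (ℕ → X) := by
    have : Countable (TopologicalSpace.countableBasis X) :=
      TopologicalSpace.countable_countableBasis X
    rw [countable_iInter_mem]
    rintro ⟨U, hU⟩
    have hUo : IsOpen U := TopologicalSpace.isOpen_of_mem_countableBasis hU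
    have hUn : U.Nonempty := TopologicalSpace.nonempty_of_mem_countableBasis hU
    refine residual_of_dense_open ?_ ?_
    · have : {x : ℕ → X | ∃ j, x j ∈ U} = ⋃ j, (fun x : ℕ → X => x j) ⁻¹' U := by
        ext x; simp
      show IsOpen {x : ℕ → X | ∃ j, x j ∈ U}
      rw [this]
      exact isOpen_iUnion fun j => hUo.preimage (continuous_apply j)
    · show Dense {x : ℕ → X | ∃ j, x j ∈ U}
      rw [dense_iff_inter_open]
      rintro V hV ⟨x0, hx0⟩
      obtain ⟨u, hu⟩ := hUn
      -- modify x0 far away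
      have ht : Tendsto (fun j : ℕ => Function.update x0 j u) atTop (𝓝 x0) := by
        rw [tendsto_pi_nhds]
        intro k
        refine tendsto_const_nhds.congr' ?_
        filter_upwards [eventually_gt_atTop k] with j hj
        rw [Function.update_of_ne (by omega)]
      obtain ⟨j, hj⟩ := (ht.eventually (hV.mem_nhds hx0)).exists
      exact ⟨_, hj, j, by simp [hu]⟩
  have h3 := inter_mem h1' h2'
  have h4 : Dense (_ : Set (ℕ → X)) := dense_of_mem_residual h3
  obtain ⟨d, hd1, hd2⟩ := h4.nonempty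
  refine ⟨d, ?_, ?_⟩
  · rw [(TopologicalSpace.isBasis_countableBasis X).dense_iff]
    intro U hU _
    have := mem_iInter.1 hd2 ⟨U, hU⟩
    obtain ⟨j, hj⟩ := this
    exact ⟨d j, hj, mem_range_self j⟩
  · intro k i σ hσ
    exact mem_iInter.1 hd1 ⟨k, i, σ, hσ⟩

/-- Radii. -/
lemma exists_radii (X : Type*) [MetricSpace X]
    (n : ℕ → ℕ) (G : ∀ k : ℕ, ℕ → Set (Fin (n k) → X)) (hGo : ∀ k i, IsOpen (G k i))
    (d : ℕ → X) (hd : ∀ k i (σ : Fin (n k) → ℕ), Function.Injective σ →
      (fun l => d (σ l)) ∈ G k i) (K : ℕ) :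
    ∃ r : ℝ, 0 < r ∧ r < 1 / ((K : ℝ) + 1) ∧ ∀ k ≤ K, ∀ i ≤ K, ∀ σ : Fin (n k) → ℕ,
      (∀ l, σ l ≤ K) → Function.Injective σ → ∀ y : Fin (n k) → X,
        (∀ l, dist (y l) (d (σ l)) < r) → y ∈ G k i := by
  have key : ∀ᶠ r in 𝓝[>] (0 : ℝ), ∀ k : Fin (K + 1), ∀ i : Fin (K + 1),
      ∀ σ : Fin (n k) → Fin (K + 1), Function.Injective σ → ∀ y : Fin (n k) → X,
        (∀ l, dist (y l) (d (σ l)) < r) → y ∈ G k i := by
    rw [eventually_all]; intro k
    rw [eventually_all]; intro i
    rw [eventually_all]; intro σ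
    by_cases hσ : Function.Injective σ
    · have hmem := hd k i (fun l => (σ l : ℕ)) (fun a b hab => hσ (Fin.ext hab))
      obtain ⟨ε, hε, hball⟩ := Metric.isOpen_iff.1 (hGo k i) _ hmem
      filter_upwards [Ioo_mem_nhdsGT hε] with r hr _ y hy
      refine hball ?_
      rw [Metric.mem_ball]
      exact ((dist_pi_lt_iff hr.1).2 hy).trans hr.2
    · exact Eventually.of_forall fun r h => absurd h hσ
  have hpos : (0 : ℝ) < 1 / ((K : ℝ) + 1) := by positivity
  obtain ⟨r, hr1, hr2⟩ := (key.and (Ioo_mem_nhdsGT hpos)).exists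
  refine ⟨r, hr2.1, hr2.2, ?_⟩
  intro k hk i hi σ hσK hσ y hy
  exact hr1 ⟨k, by omega⟩ ⟨i, by omega⟩ (fun l => ⟨σ l, by have := hσK l; omega⟩)
    (fun a b hab => hσ (by simpa using hab)) y hy

/-- The completely Baire part. `U k` are open sets, `A = {x | {k | x ∈ U k} ∈ L}`. -/
lemma completely_baire {X : Type*} [MetricSpace X] [CompleteSpace X] {L : Filter ℕ} (hL : NMP L)
    (U : ℕ → Set X) (hU : ∀ k, IsOpen (U k)) (A : Set X) (hA : A = {x | {k | x ∈ U k} ∈ L})
    (C : Set A) (hC : IsClosed C) : BaireSpace C := by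
  classical
  refine ⟨fun G hGo hGd => ?_⟩
  let emb : C → X := fun c => c.1.1
  have hemb : IsInducing emb := IsInducing.subtypeVal.comp IsInducing.subtypeVal
  have hGo' : ∀ n, ∃ O : Set X, IsOpen O ∧ emb ⁻¹' O = G n := fun n =>
    hemb.isOpen_iff.1 (hGo n)
  choose O hOo hOG using hGo'
  rw [dense_iff_inter_open]
  intro V' hV' hV'ne
  obtain ⟨V, hVo, hVV'⟩ := hemb.isOpen_iff.1 hV'
  obtain ⟨q0, hq0⟩ := hV'ne
  -- one step
  have step : ∀ (s : C × {ρ : ℝ // 0 < ρ}) (K n : ℕ), ∃ s' : C × {ρ : ℝ // 0 < ρ},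
      (∀ y ∈ Metric.closedBall (emb s'.1) s'.2.1, y ∈ Metric.ball (emb s.1) s.2.1 ∧ y ∈ O n ∧
        ∀ k ≤ K, emb s.1 ∈ U k → y ∈ U k) ∧ s'.2.1 ≤ 1 / ((n : ℝ) + 1) := by
    rintro ⟨q, ρ, hρ⟩ K n
    let W : Set X := Metric.ball (emb q) ρ ∩ ⋂ k ∈ {k : ℕ | k ≤ K ∧ emb q ∈ U k}, U k
    have hfin : {k : ℕ | k ≤ K ∧ emb q ∈ U k}.Finite :=
      (Set.finite_Iic K).subset (fun k hk => hk.1)
    have hWo : IsOpen W := Metric.isOpen_ball.inter (hfin.isOpen_biInter fun k _ => hU k)
    have hqW : emb q ∈ W := by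
      refine ⟨Metric.mem_ball_self hρ, ?_⟩
      simp only [mem_iInter]
      intro k hk
      exact hk.2
    obtain ⟨q', hq'1, hq'2⟩ := (dense_iff_inter_open.1 (hGd n)) (emb ⁻¹' W)
      (hWo.preimage hemb.continuous) ⟨q, hqW⟩
    have hq'O : emb q' ∈ O n := by
      have := hOG n ▸ hq'2
      exact this
    obtain ⟨ε, hε, hball⟩ := Metric.isOpen_iff.1 (hWo.inter (hOo n)) (emb q') ⟨hq'1, hq'O⟩
    have hpos : (0 : ℝ) < min (ε / 2) (1 / ((n : ℝ) + 1)) := by positivity
    refine ⟨(q', ⟨min (ε / 2) (1 / ((n : ℝ) + 1)), hpos⟩), ?_, min_le_right _ _⟩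
    intro y hy
    have hy' : y ∈ Metric.ball (emb q') ε := by
      rw [Metric.mem_closedBall] at hy
      rw [Metric.mem_ball]
      exact lt_of_le_of_lt (hy.trans (min_le_left _ _)) (by linarith)
    obtain ⟨⟨h1, h2⟩, h3⟩ := hball hy'
    refine ⟨h1, h3, ?_⟩
    intro k hk hqk
    exact (mem_iInter₂.1 h2) k ⟨hk, hqk⟩
  choose next hnext1 hnext2 using step
  -- initial state
  obtain ⟨ρ0, hρ0, hρV⟩ : ∃ ρ > 0, Metric.closedBall (emb q0) ρ ⊆ V := by
    have hq0V : emb q0 ∈ V := by
      have := hVV' ▸ hq0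
      exact this
    exact Metric.nhds_basis_closedBall.mem_iff.1 (hVo.mem_nhds hq0V)
  let st : List ℕ → C × {ρ : ℝ // 0 < ρ} := fun t =>
    List.rec (q0, ⟨ρ0, hρ0⟩) (fun K t s => next s K t.length) t
  have st_nil : st [] = (q0, ⟨ρ0, hρ0⟩) := rfl
  have st_cons : ∀ K t, st (K :: t) = next (st t) K t.length := fun K t => rfl
  -- M sets
  let M : C → Set ℕ := fun c => {k | emb c ∈ U k}
  have hM : ∀ c : C, M c ∈ L := by
    intro c
    have : c.1.1 ∈ {x | {k | x ∈ U k} ∈ L} := hA ▸ c.1.2
    exact this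
  obtain ⟨P, hP, hPs⟩ := hL.pseudo (fun n => M (st (Denumerable.ofNat (List ℕ) n)).1)
    (fun n => hM _)
  have hPt : ∀ t : List ℕ, ∃ m, ∀ k ≥ m, k ∈ P → k ∈ M (st t).1 := by
    intro t
    have h := hPs (Encodable.encode t)
    simp only [Denumerable.ofNat_encode] at h
    exact eventually_atTop.1 h
  choose m hm using hPt
  let μ : ℕ → ℕ := fun k => (Finset.range (k + 1)).sup
    (fun c => m (k :: Denumerable.ofNat (List ℕ) c))
  have hμ : ∀ k t, Encodable.encode t ≤ k → m (k :: t) ≤ μ k := by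
    intro k t ht
    have := Finset.le_sup (f := fun c => m (k :: Denumerable.ofNat (List ℕ) c))
      (s := Finset.range (k + 1)) (b := Encodable.encode t) (by simp; omega)
    simpa using this
  obtain ⟨E, hE, hEf⟩ := hL.nm μ
  have hpick : ∀ N, ∃ k ≥ N, ∀ j, k ≤ j → j < μ k → j ∉ E := fun N =>
    (frequently_atTop.1 hEf) N
  choose pick hpick1 hpick2 using hpick
  let kk : List ℕ → ℕ := fun t => pick (Encodable.encode t + t.sum + 1)
  let tt : ℕ → List ℕ := fun i => Nat.rec [] (fun _ t => kk t :: t) i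
  have tt_zero : tt 0 = [] := rfl
  have tt_succ : ∀ i, tt (i + 1) = kk (tt i) :: tt i := fun i => rfl
  have tt_len : ∀ i, (tt i).length = i := by
    intro i
    induction i with
    | zero => rfl
    | succ i ih => rw [tt_succ, List.length_cons, ih]
  let κ : ℕ → ℕ := fun i => kk (tt i)
  have hκenc : ∀ i, Encodable.encode (tt i) ≤ κ i := by
    intro i
    have := hpick1 (Encodable.encode (tt i) + (tt i).sum + 1)
    show _ ≤ pick _
    omega
  have hκmono : ∀ i, κ i < κ (i + 1) := by
    intro i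
    have h1 := hpick1 (Encodable.encode (tt (i+1)) + (tt (i+1)).sum + 1)
    have h2 : κ i ≤ (tt (i+1)).sum := by
      rw [tt_succ, List.sum_cons]
      show kk (tt i) ≤ _
      omega
    show κ i < pick _
    omega
  have hκstrict : StrictMono κ := strictMono_nat_of_lt_succ hκmono
  let q : ℕ → C := fun i => (st (tt i)).1
  let ρ : ℕ → ℝ := fun i => (st (tt i)).2.1
  have hρpos : ∀ i, 0 < ρ i := fun i => (st (tt i)).2.2
  have hstep : ∀ i, ∀ y ∈ Metric.closedBall (emb (q (i+1))) (ρ (i+1)),
      y ∈ Metric.ball (emb (q i)) (ρ i) ∧ y ∈ O i ∧ ∀ k ≤ κ i, emb (q i) ∈ U k → y ∈ U k := by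
    intro i y hy
    have := hnext1 (st (tt i)) (kk (tt i)) (tt i).length y (by
      have h : st (tt (i+1)) = next (st (tt i)) (kk (tt i)) (tt i).length := by
        rw [tt_succ, st_cons]
      rw [← h]; exact hy)
    rw [tt_len] at this
    exact this
  have hρle : ∀ i, ρ (i+1) ≤ 1 / ((i : ℝ) + 1) := by
    intro i
    have := hnext2 (st (tt i)) (kk (tt i)) (tt i).length
    have h : st (tt (i+1)) = next (st (tt i)) (kk (tt i)) (tt i).length := by
      rw [tt_succ, st_cons]
    rw [← h, tt_len] at this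
    exact this
  have hnest : ∀ i, Metric.closedBall (emb (q (i+1))) (ρ (i+1)) ⊆
      Metric.closedBall (emb (q i)) (ρ i) := fun i y hy =>
    Metric.ball_subset_closedBall (hstep i y hy).1
  have hanti : Antitone (fun i => Metric.closedBall (emb (q i)) (ρ i)) :=
    antitone_nat_of_succ_le hnest
  have hin : ∀ i j, i ≤ j → emb (q j) ∈ Metric.closedBall (emb (q i)) (ρ i) := by
    intro i j hij
    exact hanti hij (Metric.mem_closedBall_self (hρpos j).le)
  have hcauchy : CauchySeq (fun i => emb (q (i+1))) := by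
    refine cauchySeq_of_le_tendsto_0 (fun N => 2 * (1 / ((N : ℝ) + 1))) ?_ ?_
    · intro a b N ha hb
      have h1 := hin (N+1) (a+1) (by omega)
      have h2 := hin (N+1) (b+1) (by omega)
      rw [Metric.mem_closedBall] at h1 h2
      have h3 := hρle N
      calc dist (emb (q (a+1))) (emb (q (b+1)))
          ≤ dist (emb (q (a+1))) (emb (q (N+1))) + dist (emb (q (b+1))) (emb (q (N+1))) :=
            dist_triangle_right _ _ _
        _ ≤ _ := by linarith
    · have := tendsto_one_div_add_atTop_nhds_zero_nat (𝕜 := ℝ)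
      simpa using this.const_mul 2
  obtain ⟨x, hx⟩ := cauchySeq_tendsto_of_complete hcauchy
  have hxball : ∀ i, x ∈ Metric.closedBall (emb (q i)) (ρ i) := by
    intro i
    refine Metric.isClosed_closedBall.mem_of_tendsto hx ?_
    filter_upwards [eventually_ge_atTop i] with j hj
    exact hin i (j+1) (by omega)
  have hxA : x ∈ A := by
    rw [hA]
    show {k | x ∈ U k} ∈ L
    have h1 : P ∩ E ∩ {k | κ 0 ≤ k} ∈ L := by
      refine inter_mem (inter_mem hP hE) (hL.le ?_)
      exact eventually_ge_atTop (κ 0)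
    refine mem_of_superset h1 ?_
    rintro k ⟨⟨hkP, hkE⟩, hk0⟩
    have hk0' : κ 0 ≤ k := hk0
    have hex : ∃ i, k < κ (i+1) := ⟨k, lt_of_lt_of_le (Nat.lt_succ_self k) (hκstrict.id_le (k+1))⟩
    let i := Nat.find hex
    have hi1 : k < κ (i+1) := Nat.find_spec hex
    have hi2 : κ i ≤ k := by
      rcases Nat.eq_zero_or_pos i with h0 | hpos
      · rw [h0]; exact hk0'
      · have := Nat.find_min hex (m := i - 1) (by omega)
        have h' : i - 1 + 1 = i := by omega
        rw [h'] at this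
        omega
    -- k is beyond μ (κ i)
    have hkμ : μ (κ i) ≤ k := by
      by_contra hlt
      push Not at hlt
      exact hpick2 (Encodable.encode (tt i) + (tt i).sum + 1) k hi2 hlt hkE
    have hm1 : m (tt (i+1)) ≤ k := by
      have := hμ (κ i) (tt i) (hκenc i)
      have h' : m (tt (i+1)) = m (κ i :: tt i) := rfl
      omega
    have hkM : k ∈ M (q (i+1)) := hm (tt (i+1)) k hm1 hkP
    exact (hstep (i+1) x (hxball (i+2))).2.2 k hi1.le hkM
  have hxC : (⟨x, hxA⟩ : A) ∈ C := by
    have ht : Tendsto (fun i => (q (i+1)).1) atTop (𝓝 (⟨x, hxA⟩ : A)) := by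
      rw [tendsto_subtype_rng]
      exact hx
    exact hC.mem_of_tendsto ht (Eventually.of_forall fun i => (q (i+1)).2)
  refine ⟨⟨⟨x, hxA⟩, hxC⟩, ?_, ?_⟩
  · rw [← hVV']
    show x ∈ V
    exact hρV (hxball 0)
  · rw [mem_iInter]
    intro n
    rw [← hOG n]
    show x ∈ O n
    exact (hstep n x (hxball (n+1))).2.1

/-- Main topological theorem: a non-meager P-filter yields dense, free, completely Baire sets. -/
theorem main_of_NMP {L : Filter ℕ} (hL : NMP L) (X : Type*) [TopologicalSpace X] [PolishSpace X]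
    (n : ℕ → ℕ) (R : ∀ k : ℕ, Set (Fin (n k) → X)) (hR : ∀ k, IsMeagre (R k)) :
    ∃ A : Set X, Dense A ∧ (∀ C : Set A, IsClosed C → BaireSpace C) ∧
      ∀ (k : ℕ) (f : Fin (n k) → X), Function.Injective f → (∀ i, f i ∈ A) → f ∉ R k := by
  classical
  rcases isEmpty_or_nonempty X with hX | hX
  · by_cases hk : ∃ k, n k = 0 ∧ (R k).Nonempty
    · -- impossible : R k nonempty in a one point space
      exfalso
      obtain ⟨k, hk0, hne⟩ := hk
      have : IsEmpty (Fin (n k)) := by rw [hk0]; infer_instance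
      obtain ⟨f, hf⟩ := hne
      have huniv : R k = univ := by
        ext g
        constructor
        · intro _; trivial
        · intro _
          have : g = f := Subsingleton.elim _ _
          rw [this]; exact hf
      have h1 := hR k
      rw [huniv, IsMeagre, compl_univ, mem_residual_iff] at h1
      obtain ⟨S, ho, hd, hc, hs⟩ := h1
      have : f ∈ ⋂₀ S := by
        intro t ht
        obtain ⟨g, hg⟩ := (hd t ht).nonempty
        have : f = g := Subsingleton.elim _ _
        rw [this]; exact hg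
      exact hs this
    · refine ⟨∅, ?_, ?_, ?_⟩
      · intro x; exact (hX.false x).elim
      · intro C _
        have : IsEmpty C := ⟨fun c => hX.false c.1.1⟩
        infer_instance
      · intro k f hf hA hfR
        by_cases hn : n k = 0
        · exact hk ⟨k, hn, ⟨f, hfR⟩⟩
        · exact (hX.false (f ⟨0, Nat.pos_of_ne_zero hn⟩)).elim
  · letI := TopologicalSpace.upgradeIsCompletelyMetrizable X
    have hG := fun k => exists_open_dense_seq (hR k)
    choose G hGo hGd hGR using hG
    obtain ⟨d, hdd, hdG⟩ := exists_free_dense_seq X n G hGo hGd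
    have hr := exists_radii X n G hGo d hdG
    choose r hr0 hr1 hrG using hr
    let U : ℕ → Set X := fun K => {x | ∃ j ≤ K, dist x (d j) < r K}
    have hU : ∀ K, IsOpen (U K) := by
      intro K
      have : U K = ⋃ j ∈ {j | j ≤ K}, Metric.ball (d j) (r K) := by
        ext x; simp [U]
      rw [this]
      exact isOpen_biUnion fun j _ => Metric.isOpen_ball
    refine ⟨{x | {K | x ∈ U K} ∈ L}, ?_, ?_, ?_⟩
    · refine hdd.mono ?_
      rintro _ ⟨j, rfl⟩
      show {K | d j ∈ U K} ∈ L
      refine hL.le ?_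
      filter_upwards [eventually_ge_atTop j] with K hK
      exact ⟨j, hK, by simp [hr0 K]⟩
    · intro C hC
      exact completely_baire hL U hU _ rfl C hC
    · intro k f hf hfA hfR
      obtain ⟨i, hi⟩ := hGR k f hfR
      apply hi
      -- choose a common moment
      have h1 : (⋂ l, {K | f l ∈ U K}) ∈ L := by
        rw [iInter_mem]
        intro l
        exact hfA l
      -- minimal distance
      have h2 : ∀ᶠ K : ℕ in atTop, ∀ l l' : Fin (n k), l ≠ l' →
          2 * (1 / ((K : ℝ) + 1)) < dist (f l) (f l') := by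
        rw [eventually_all]; intro l
        rw [eventually_all]; intro l'
        by_cases hll : l = l'
        · exact Eventually.of_forall fun K h => absurd hll h
        · have hpos : 0 < dist (f l) (f l') := dist_pos.2 fun h => hll (hf h)
          have ht : Tendsto (fun K : ℕ => 2 * (1 / ((K : ℝ) + 1))) atTop (𝓝 0) := by
            have := tendsto_one_div_add_atTop_nhds_zero_nat (𝕜 := ℝ)
            simpa using this.const_mul 2
          filter_upwards [ht.eventually (gt_mem_nhds hpos)] with K hK _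
          exact hK
      have h3 : ∀ᶠ K : ℕ in L, K ∈ (⋂ l, {K | f l ∈ U K}) ∧ (k ≤ K ∧ i ≤ K ∧
          ∀ l l' : Fin (n k), l ≠ l' → 2 * (1 / ((K : ℝ) + 1)) < dist (f l) (f l')) := by
        refine Filter.Eventually.and h1 (hL.le ?_)
        filter_upwards [eventually_ge_atTop k, eventually_ge_atTop i, h2] with K a b c
        exact ⟨a, b, c⟩
      haveI := hL.neBot
      obtain ⟨K, hK1, hK2, hK3, hK4⟩ := h3.exists
      have hK1' : ∀ l, ∃ j ≤ K, dist (f l) (d j) < r K := fun l => mem_iInter.1 hK1 l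
      choose σ hσ1 hσ2 using hK1'
      refine hrG K k hK2 i hK3 σ hσ1 ?_ f hσ2
      intro l l' hll
      by_contra hne
      have h5 := hK4 l l' hne
      have h6 : dist (f l) (f l') ≤ dist (f l) (d (σ l)) + dist (f l') (d (σ l)) :=
        dist_triangle_right _ _ _
      have h7 := hσ2 l
      have h8 := hσ2 l'
      rw [← hll] at h8
      have h9 := hr1 K
      linarith

end Pool.Agent.H538R3.CB
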