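import Mathlib
import Pool.Agent.H538R3.CBTop

set_option autoImplicit false

open Filter Set Cardinal

namespace Pool.Agent.H538R3.CB

/-- monotone strictly expanding majorant -/
lemma exists_mono_majorant (g : ℕ → ℕ) :
    ∃ G : ℕ → ℕ, Monotone G ∧ (∀ n, n < G n) ∧ ∀ n, g n ≤ G n := by
  refine ⟨fun n => n + 1 + ∑ i ∈ Finset.range (n+1), g i, ?_, ?_, ?_⟩
  · intro a b hab
    have : ∑ i ∈ Finset.range (a+1), g i ≤ ∑ i ∈ Finset.range (b+1), g i :=
      Finset.sum_le_sum_of_subset (Finset.range_mono (by omega))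
    show a + 1 + _ ≤ b + 1 + _
    omega
  · intro n
    show n < n + 1 + _
    omega
  · intro n
    have := Finset.single_le_sum (f := g) (fun i _ => Nat.zero_le _) (Finset.self_mem_range_succ n)
    show g n ≤ n + 1 + _
    omega

lemma exists_countable_bound (h : ℕ → ℕ → ℕ) :
    ∃ H : ℕ → ℕ, ∀ n, ∀ᶠ k in atTop, h n k ≤ H k :=
  ⟨fun k => (Finset.range (k+1)).sup (fun n => h n k), fun n => by
    filter_upwards [eventually_ge_atTop n] with k hk
    exact Finset.le_sup (f := fun n => h n k) (by simp; omega)⟩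

lemma exists_countable_bound' {J : Type*} [Countable J] (h : J → ℕ → ℕ) :
    ∃ H : ℕ → ℕ, ∀ n, ∀ᶠ k in atTop, h n k ≤ H k := by
  rcases isEmpty_or_nonempty J with hJ | hJ
  · exact ⟨fun _ => 0, fun n => (hJ.false n).elim⟩
  · obtain ⟨f, hf⟩ := exists_surjective_nat J
    obtain ⟨H, hH⟩ := exists_countable_bound (fun n => h (f n))
    refine ⟨H, fun j => ?_⟩
    obtain ⟨n, rfl⟩ := hf j
    exact hH n

lemma wf_choice {ι : Type*} [LinearOrder ι] [WellFoundedLT ι] {α : Type*} [Nonempty α]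
    (P : ι → (ι → α) → α → Prop)
    (hc : ∀ a F F' e, (∀ b < a, F b = F' b) → P a F e → P a F' e)
    (h : ∀ a F, ∃ e, P a F e) : ∃ E : ι → α, ∀ a, P a E (E a) := by
  classical
  choose f hf using h
  let E : ι → α := (wellFounded_lt (α := ι)).fix
    (fun a F => f a (fun b => if h : b < a then F b h else Classical.arbitrary α))
  have hE : ∀ a, E a = f a (fun b => if b < a then E b else Classical.arbitrary α) := by
    intro a
    have := (wellFounded_lt (α := ι)).fix_eq
      (fun a F => f a (fun b => if h : b < a then F b h else Classical.arbitrary α)) a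
    show (wellFounded_lt (α := ι)).fix _ a = _
    rw [this]
    congr 1
  refine ⟨E, fun a => ?_⟩
  have := hf a (fun b => if b < a then E b else Classical.arbitrary α)
  rw [← hE a] at this
  refine hc a _ _ _ ?_ this
  intro b hb
  simp [hb]

lemma countable_mono_finset {J : Type*} (c : Set J) (hc : c.Countable) :
    ∃ t : ℕ → Finset J, Monotone t ∧ ∀ j ∈ c, ∃ n, j ∈ t n := by
  classical
  rcases c.eq_empty_or_nonempty with h | h
  · exact ⟨fun _ => ∅, fun _ _ _ => le_rfl, by simp [h]⟩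
  · obtain ⟨f, hf⟩ := hc.exists_eq_range h
    refine ⟨fun n => (Finset.range (n+1)).image f, ?_, ?_⟩
    · intro a b hab
      exact Finset.image_subset_image (Finset.range_mono (by omega))
    · intro j hj
      rw [hf] at hj
      obtain ⟨n, rfl⟩ := hj
      exact ⟨n, Finset.mem_image.2 ⟨n, by simp, rfl⟩⟩

/-- One step lemma, in the style of Ketonen. -/
lemma ketonen {J : Type*} (F : J → Set ℕ)
    (hF : ∀ s : Finset J, {k | ∀ j ∈ s, k ∈ F j}.Infinite)
    (hsmall : ∀ f : Finset J → ℕ → ℕ, ∃ h : ℕ → ℕ, ∀ s, ∃ᶠ n in atTop, f s n < h n)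
    (t : ℕ → Finset J) (ht : Monotone t) (g₀ : ℕ → ℕ) :
    ∃ e : Set ℕ, (∀ s : Finset J, {k | k ∈ e ∧ ∀ j ∈ s, k ∈ F j}.Infinite) ∧
      (∀ n, ∀ j ∈ t n, ∀ᶠ k in atTop, k ∈ e → k ∈ F j) ∧
      (∃ᶠ k in atTop, ∀ j, k ≤ j → j < g₀ k → j ∉ e) := by
  classical
  obtain ⟨g, hgm, hgn, hg⟩ := exists_mono_majorant g₀
  have hnx : ∀ (s : Finset J) (n m : ℕ), ∃ k ≥ m, ∀ j ∈ s ∪ t n, k ∈ F j := by
    intro s n m
    obtain ⟨k, hk1, hk2⟩ := (hF (s ∪ t n)).exists_gt m
    exact ⟨k, hk2.le, hk1⟩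
  choose nx hnx1 hnx2 using hnx
  let e1 : Finset J → ℕ → ℕ := fun s n => nx s n (g n)
  let e2 : Finset J → ℕ → ℕ := fun s n => nx s (e1 s n) (g (e1 s n))
  obtain ⟨h₀, hh₀⟩ := hsmall e2
  obtain ⟨h, hhm, hhn, hhh⟩ := exists_mono_majorant h₀
  have hh : ∀ s, ∃ᶠ n in atTop, e2 s n < h n := fun s =>
    (hh₀ s).mono fun n hn => lt_of_lt_of_le hn (hhh n)
  let a : ℕ → ℕ := fun i => Nat.rec 0 (fun _ x => h x) i
  have a0 : a 0 = 0 := rfl
  have as : ∀ i, a (i+1) = h (a i) := fun i => rfl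
  have hamono : StrictMono a := strictMono_nat_of_lt_succ fun i => by rw [as]; exact hhn _
  have haid : ∀ i, i ≤ a i := fun i => hamono.id_le i
  let e : Set ℕ := {k | ∃ i, g (a i) ≤ k ∧ k < a (i+1) ∧ ∀ j ∈ t i, k ∈ F j}
  refine ⟨e, ?_, ?_, ?_⟩
  · intro s
    rw [← Nat.frequently_atTop_iff_infinite, frequently_atTop]
    intro N
    obtain ⟨n, hnN, hn⟩ := (frequently_atTop.1 (hh s)) N
    -- find i with a i ≤ n < a (i+1)
    have hex : ∃ i, n < a (i+1) := ⟨n, lt_of_lt_of_le (Nat.lt_succ_self n) (haid (n+1))⟩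
    let i := Nat.find hex
    have hi1 : n < a (i+1) := Nat.find_spec hex
    have hi2 : a i ≤ n := by
      rcases Nat.eq_zero_or_pos i with h0 | hpos
      · rw [h0, a0]; exact Nat.zero_le _
      · have := Nat.find_min hex (m := i - 1) (by omega)
        have h' : i - 1 + 1 = i := by omega
        rw [h'] at this
        omega
    have h1 : g n ≤ e1 s n := hnx1 s n (g n)
    have h2 : ∀ j ∈ s ∪ t n, e1 s n ∈ F j := hnx2 s n (g n)
    have h3 : g (e1 s n) ≤ e2 s n := hnx1 s (e1 s n) _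
    have h4 : ∀ j ∈ s ∪ t (e1 s n), e2 s n ∈ F j := hnx2 s (e1 s n) _
    have h5 : n < g n := hgn n
    have h6 : e1 s n < g (e1 s n) := hgn _
    by_cases hcase : e1 s n < a (i+1)
    · refine ⟨e1 s n, by omega, ⟨i, ?_, hcase, ?_⟩, ?_⟩
      · exact (hgm hi2).trans h1
      · intro j hj
        apply h2 j
        rw [Finset.mem_union]
        right
        exact ht ((haid i).trans hi2) hj
      · intro j hj
        apply h2 j
        rw [Finset.mem_union]
        left; exact hj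
    · push Not at hcase
      refine ⟨e2 s n, by omega, ⟨i+1, ?_, ?_, ?_⟩, ?_⟩
      · exact (hgm hcase).trans h3
      · calc e2 s n < h n := hn
          _ ≤ h (a (i+1)) := hhm hi1.le
          _ = a (i+1+1) := (as (i+1)).symm
      · intro j hj
        apply h4 j
        rw [Finset.mem_union]
        right
        exact ht ((haid (i+1)).trans hcase) hj
      · intro j hj
        apply h4 j
        rw [Finset.mem_union]
        left; exact hj
  · intro n j hj
    filter_upwards [eventually_ge_atTop (a n)] with k hk hke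
    obtain ⟨i, hi1, hi2, hi3⟩ := hke
    apply hi3 j
    have : n < i + 1 := hamono.lt_iff_lt.1 (lt_of_le_of_lt hk hi2)
    exact ht (by omega : n ≤ i) hj
  · rw [frequently_atTop]
    intro N
    refine ⟨a N, haid N, ?_⟩
    rintro j hj1 hj2 ⟨i, hi1, hi2, -⟩
    have hj3 : j < g (a N) := lt_of_lt_of_le hj2 (hg _)
    rcases lt_trichotomy i N with h | h | h
    · have h7 : i + 1 ≤ N := h
      have : a (i+1) ≤ a N := hamono.monotone h7
      omega
    · subst h; omega
    · have : g (a N) ≤ g (a i) := hgm (hamono.monotone h.le)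
      omega

/-- Existence of a non-meager P-filter from a covering type assumption. -/
theorem exists_NMP_of_cof {ι : Type} [LinearOrder ι] [WellFoundedLT ι]
    (hι : ∀ a : ι, #(Iio a) < #ι)
    (hsmall : ∀ (J : Type) (f : J → ℕ → ℕ), #J < #ι →
      ∃ h : ℕ → ℕ, ∀ j, ∃ᶠ n in atTop, f j n < h n)
    (D : Set (ℕ → ℕ)) (hD : ∀ f : ℕ → ℕ, ∃ g ∈ D, ∀ᶠ n in atTop, f n ≤ g n) (hDc : #D ≤ #ι)
    (𝒞 : Set (Set ι)) (h𝒞c : ∀ c ∈ 𝒞, c.Countable)
    (h𝒞 : ∀ s : Set ι, s.Countable → ∃ c ∈ 𝒞, s ⊆ c) (h𝒞card : #𝒞 ≤ #ι) :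
    ∃ L : Filter ℕ, NMP L := by
  classical
  -- `ι` is uncountable
  have hunc : ℵ₀ < #ι := by
    by_contra hcon
    push Not at hcon
    have : Countable D := by
      rw [← mk_le_aleph0_iff]
      exact hDc.trans hcon
    obtain ⟨H, hH⟩ := exists_countable_bound' (fun f : D => f.1)
    obtain ⟨g, hg1, hg2⟩ := hD (fun n => H n + 1)
    obtain ⟨n, hn1, hn2⟩ := (hg2.and (hH ⟨g, hg1⟩)).exists
    simp only at hn2
    omega
  have hinf : Infinite ι := infinite_iff.2 hunc.le
  have hneι : Nonempty ι := inferInstance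
  have hD0 : Nonempty D := by
    obtain ⟨g, hg, _⟩ := hD (fun _ => 0)
    exact ⟨⟨g, hg⟩⟩
  have h𝒞0 : Nonempty 𝒞 := by
    obtain ⟨c, hc, _⟩ := h𝒞 ∅ countable_empty
    exact ⟨⟨c, hc⟩⟩
  -- small families
  have hfin : ∀ a : ι, #(Finset (Iio a)) < #ι := by
    intro a
    rcases finite_or_infinite (Iio a) with h | h
    · have : Finite (Finset (Iio a)) := inferInstance
      exact (mk_lt_aleph0_iff.2 this).trans hunc
    · rw [mk_finset_of_infinite]; exact hι a
  -- tasks
  have hcardT : #(ι × (𝒞 × D)) ≤ #ι := by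
    rw [mk_prod, mk_prod]
    simp only [lift_id]
    calc #ι * (#𝒞 * #D) ≤ #ι * (#ι * #ι) := by gcongr
      _ = #ι := by
        rw [mul_eq_self hunc.le, mul_eq_self hunc.le]
  obtain ⟨emb⟩ : Nonempty (ι × (𝒞 × D) ↪ ι) := (le_def _ _).1 hcardT
  let e : ι → ι × (𝒞 × D) := Function.invFun emb
  have he : ∀ p, e (emb p) = p := Function.leftInverse_invFun emb.injective
  have hfiber : ∀ (τ : 𝒞 × D) (a0 : ι), ∃ a, a0 ≤ a ∧ (e a).2 = τ := by
    intro τ a0
    by_contra hcon
    push Not at hcon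
    have h1 : ∀ i : ι, emb (i, τ) ∈ Iio a0 := by
      intro i
      by_contra h2
      have h3 : a0 ≤ emb (i, τ) := not_lt.1 h2
      exact hcon _ h3 (by rw [he])
    have h2 : #ι ≤ #(Iio a0) := by
      refine mk_le_of_injective (f := fun i => (⟨emb (i, τ), h1 i⟩ : Iio a0)) ?_
      intro i j hij
      have := emb.injective (Subtype.ext_iff.1 hij)
      exact (Prod.ext_iff.1 this).1
    exact absurd (h2.trans_lt (hι a0)) (lt_irrefl _)
  let Ca : ι → Set ι := fun a => (e a).2.1.1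
  let ga : ι → ℕ → ℕ := fun a => (e a).2.2.1
  have hCa : ∀ a, (Ca a).Countable := fun a => h𝒞c _ (e a).2.1.2
  -- recursion
  let P : ι → (ι → Set ℕ) → Set ℕ → Prop := fun a F x =>
    (∀ s : Finset ι, (∀ j ∈ s, j < a) → {k | ∀ j ∈ s, k ∈ F j}.Infinite) →
      ((∀ s : Finset ι, (∀ j ∈ s, j < a) → {k | k ∈ x ∧ ∀ j ∈ s, k ∈ F j}.Infinite) ∧
       (∀ j ∈ Ca a, j < a → ∀ᶠ k in atTop, k ∈ x → k ∈ F j) ∧
       (∃ᶠ k in atTop, ∀ j, k ≤ j → j < ga a k → j ∉ x))
  obtain ⟨E, hE⟩ := wf_choice P (by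
    intro a F F' x hFF' hP hF'
    have hset : ∀ s : Finset ι, (∀ j ∈ s, j < a) →
        {k | ∀ j ∈ s, k ∈ F j} = {k | ∀ j ∈ s, k ∈ F' j} := by
      intro s hs
      ext k
      simp only [mem_ofPred]
      exact forall₂_congr fun j hj => by rw [hFF' j (hs j hj)]
    obtain ⟨h1, h2, h3⟩ := hP (fun s hs => by rw [hset s hs]; exact hF' s hs)
    refine ⟨?_, ?_, h3⟩
    · intro s hs
      have : {k | k ∈ x ∧ ∀ j ∈ s, k ∈ F' j} = {k | k ∈ x ∧ ∀ j ∈ s, k ∈ F j} := by
        ext k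
        simp only [mem_ofPred]
        refine and_congr_right fun _ => forall₂_congr fun j hj => by rw [hFF' j (hs j hj)]
      rw [this]
      exact h1 s hs
    · intro j hj hja
      rw [← hFF' j hja]
      exact h2 j hj hja) (by
    intro a F
    by_cases hF : ∀ s : Finset ι, (∀ j ∈ s, j < a) → {k | ∀ j ∈ s, k ∈ F j}.Infinite
    · obtain ⟨t, ht1, ht2⟩ := countable_mono_finset {j : Iio a | j.1 ∈ Ca a}
        ((hCa a).preimage_of_injOn Subtype.val_injective.injOn)
      obtain ⟨x, hx1, hx2, hx3⟩ := ketonen (J := Iio a) (fun j => F j.1) (by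
        intro s
        have := hF (s.map (Function.Embedding.subtype _)) (by
          intro j hj
          simp only [Finset.mem_map, Function.Embedding.coe_subtype] at hj
          obtain ⟨i, _, rfl⟩ := hj
          exact i.2)
        refine this.mono ?_
        intro k hk j hj
        exact hk j.1 (Finset.mem_map.2 ⟨j, hj, rfl⟩)) (fun f => hsmall _ f (hfin a)) t ht1 (ga a)
      refine ⟨x, fun _ => ⟨?_, ?_, hx3⟩⟩
      · intro s hs
        have := hx1 (s.subtype (fun j => j ∈ Iio a))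
        refine this.mono ?_
        rintro k ⟨hk1, hk2⟩
        refine ⟨hk1, fun j hj => ?_⟩
        exact hk2 ⟨j, hs j hj⟩ (by simpa using hj)
      · intro j hj hja
        obtain ⟨n, hn⟩ := ht2 ⟨j, hja⟩ hj
        exact hx2 n _ hn
    · exact ⟨∅, fun h => absurd h hF⟩)
  -- centeredness
  have hcent' : ∀ a : ι, ∀ s : Finset ι, (∀ j ∈ s, j < a) → {k | ∀ j ∈ s, k ∈ E j}.Infinite := by
    intro a
    induction a using WellFoundedLT.induction with
    | ind a ih =>
      intro s hs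
      rcases s.eq_empty_or_nonempty with h | h
      · subst h
        simpa using Set.infinite_univ
      · let m := s.max' h
        have hm : m ∈ s := s.max'_mem h
        have := (hE m (ih m (hs m hm))).1 (s.erase m) (by
          intro j hj
          have h1 := Finset.mem_of_mem_erase hj
          have h2 := Finset.ne_of_mem_erase hj
          exact lt_of_le_of_ne (s.le_max' j h1) h2)
        refine this.mono ?_
        rintro k ⟨hk1, hk2⟩ j hj
        by_cases hjm : j = m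
        · rw [hjm]; exact hk1
        · exact hk2 j (Finset.mem_erase.2 ⟨hjm, hj⟩)
  have hnomax : ∀ a : ι, ∃ b, a < b := by
    intro a
    by_contra hcon
    push Not at hcon
    have : #ι ≤ #(Iic a) := mk_le_of_injective (f := fun i => (⟨i, hcon i⟩ : Iic a))
      (fun i j h => Subtype.ext_iff.1 h)
    have h2 : #(Iic a) < #ι := by
      have h3 : (Iic a : Set ι) = insert a (Iio a) := by
        ext x; simp [le_iff_eq_or_lt]
      rw [h3]
      refine (mk_insert_le).trans_lt ?_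
      exact add_lt_of_lt hunc.le (hι a) (one_lt_aleph0.trans hunc)
    exact absurd (this.trans_lt h2) (lt_irrefl _)
  have hcent : ∀ s : Finset ι, {k | ∀ j ∈ s, k ∈ E j}.Infinite := by
    intro s
    rcases s.eq_empty_or_nonempty with h | h
    · subst h
      simpa using Set.infinite_univ
    · obtain ⟨b, hb⟩ := hnomax (s.max' h)
      exact hcent' b s fun j hj => lt_of_le_of_lt (s.le_max' j hj) hb
  have hE' : ∀ a, (∀ j ∈ Ca a, j < a → ∀ᶠ k in atTop, k ∈ E a → k ∈ E j) ∧
      (∃ᶠ k in atTop, ∀ j, k ≤ j → j < ga a k → j ∉ E a) := fun a => (hE a (hcent' a)).2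
  -- countable sets are bounded
  have hbdd : ∀ c : Set ι, c.Countable → ∃ a0, ∀ b ∈ c, b < a0 := by
    intro c hc
    by_contra hcon
    push Not at hcon
    obtain ⟨embD⟩ : Nonempty (D ↪ ι) := (le_def _ _).1 hDc
    let s : ι → D := Function.invFun embD
    have hs : ∀ p, s (embD p) = p := Function.leftInverse_invFun embD.injective
    have h1 : ∀ b : ι, ∃ h : ℕ → ℕ, ∀ j : Iic b, ∃ᶠ n in atTop, (s j.1).1 n < h n := by
      intro b
      apply hsmall (Iic b) (fun j => (s j.1).1)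
      have h3 : (Iic b : Set ι) = insert b (Iio b) := by
        ext x; simp [le_iff_eq_or_lt]
      rw [h3]
      refine (mk_insert_le).trans_lt ?_
      exact add_lt_of_lt hunc.le (hι b) (one_lt_aleph0.trans hunc)
    choose h hh using h1
    have : Countable c := hc
    obtain ⟨H, hH⟩ := exists_countable_bound' (fun b : c => h b.1)
    obtain ⟨g, hgD, hg⟩ := hD H
    obtain ⟨b, hbc, hb⟩ := hcon (embD ⟨g, hgD⟩)
    have h2 := hh b ⟨embD ⟨g, hgD⟩, hb⟩
    rw [hs] at h2
    obtain ⟨n, hn1, hn2, hn3⟩ := (h2.and_eventually ((hH ⟨b, hbc⟩).and hg)).exists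
    simp only at hn1 hn2 hn3
    omega
  -- the filter
  let L : Filter ℕ :=
    { sets := {s | ∃ t : Finset ι, ∀ᶠ k in atTop, (∀ j ∈ t, k ∈ E j) → k ∈ s}
      univ_sets := ⟨∅, Eventually.of_forall fun _ _ => trivial⟩
      sets_of_superset := by
        rintro x y ⟨t, ht⟩ hxy
        exact ⟨t, ht.mono fun k hk hj => hxy (hk hj)⟩
      inter_sets := by
        rintro x y ⟨t, ht⟩ ⟨t', ht'⟩
        refine ⟨t ∪ t', ?_⟩
        filter_upwards [ht, ht'] with k hk hk' hj
        exact ⟨hk fun j h => hj j (Finset.mem_union_left _ h),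
          hk' fun j h => hj j (Finset.mem_union_right _ h)⟩ }
  have hmem : ∀ s, s ∈ L ↔ ∃ t : Finset ι, ∀ᶠ k in atTop, (∀ j ∈ t, k ∈ E j) → k ∈ s :=
    fun s => Iff.rfl
  have hEL : ∀ a, E a ∈ L := by
    intro a
    rw [hmem]
    exact ⟨{a}, Eventually.of_forall fun k hk => hk a (by simp)⟩
  refine ⟨L, ⟨?_, ?_, ?_, ?_⟩⟩
  · rw [neBot_iff]
    intro hbot
    have : (∅ : Set ℕ) ∈ L := by rw [hbot]; exact mem_bot
    rw [hmem] at this
    obtain ⟨t, ht⟩ := this
    have h1 := Nat.frequently_atTop_iff_infinite.2 (hcent t)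
    obtain ⟨k, hk1, hk2⟩ := (h1.and_eventually ht).exists
    exact hk2 hk1
  · intro s hs
    rw [hmem]
    exact ⟨∅, Filter.Eventually.mono hs fun k hk _ => hk⟩
  · intro s hs
    have : ∀ n, ∃ t : Finset ι, ∀ᶠ k in atTop, (∀ j ∈ t, k ∈ E j) → k ∈ s n := hs
    choose t ht using this
    have hc : (⋃ n, (t n : Set ι)).Countable :=
      countable_iUnion fun n => (t n).countable_toSet
    obtain ⟨c, hc𝒞, hcsub⟩ := h𝒞 _ hc
    obtain ⟨a0, ha0⟩ := hbdd _ hc
    obtain ⟨a, ha1, ha2⟩ := hfiber (⟨c, hc𝒞⟩, Classical.arbitrary D) a0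
    refine ⟨E a, hEL a, ?_⟩
    intro n
    have h1 : ∀ᶠ k in atTop, ∀ j ∈ t n, k ∈ E a → k ∈ E j := by
      rw [Filter.eventually_all_finset]
      intro j hj
      refine (hE' a).1 j ?_ ?_
      · show j ∈ (e a).2.1.1
        rw [ha2]
        exact hcsub (mem_iUnion.2 ⟨n, hj⟩)
      · exact lt_of_lt_of_le (ha0 j (mem_iUnion.2 ⟨n, hj⟩)) ha1
    filter_upwards [h1, ht n] with k hk1 hk2 hkE
    exact hk2 fun j hj => hk1 j hj hkE
  · intro μ
    obtain ⟨g, hgD, hg⟩ := hD μ
    obtain ⟨a, ha1, ha2⟩ := hfiber (Classical.arbitrary 𝒞, ⟨g, hgD⟩) (Classical.arbitrary ι)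
    refine ⟨E a, hEL a, ?_⟩
    have h1 := (hE' a).2
    have h2 : ga a = g := by
      show (e a).2.2.1 = g
      rw [ha2]
    rw [h2] at h1
    refine (h1.and_eventually hg).mono ?_
    rintro k ⟨hk1, hk2⟩ j hj1 hj2
    exact hk1 j hj1 (by omega)

end Pool.Agent.H538R3.CB
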