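import Mathlib
import Pool.Agent.H538R3.CBComb

set_option autoImplicit false

open Filter Set Cardinal Topology

namespace Pool.Agent.H538R3.CB

lemma mk_Iic_lt' {ι : Type} [LinearOrder ι] (hι : ∀ a : ι, #(Iio a) < #ι) (hunc : ℵ₀ < #ι) (b : ι) :
    #(Iic b) < #ι := by
  have h3 : (Iic b : Set ι) = insert b (Iio b) := by
    ext x; simp [le_iff_eq_or_lt]
  rw [h3]
  refine (mk_insert_le).trans_lt ?_
  exact add_lt_of_lt hunc.le (hι b) (one_lt_aleph0.trans hunc)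

lemma unc_of_unbounded {ι : Type} (u : ι → ℕ → ℕ)
    (hu : ∀ H : ℕ → ℕ, ∃ a, ¬ ∀ᶠ n in atTop, u a n ≤ H n) : ℵ₀ < #ι := by
  by_contra hcon
  push Not at hcon
  have : Countable ι := mk_le_aleph0_iff.1 hcon
  obtain ⟨H, hH⟩ := exists_countable_bound' u
  obtain ⟨a, ha⟩ := hu H
  exact ha (hH a)

lemma countable_bounded {ι : Type} [LinearOrder ι]
    (hι : ∀ a : ι, #(Iio a) < #ι)
    (hbdd : ∀ (J : Type) (f : J → ℕ → ℕ), #J < #ι →
      ∃ H : ℕ → ℕ, ∀ j, ∀ᶠ n in atTop, f j n ≤ H n)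
    (u : ι → ℕ → ℕ) (hu : ∀ H : ℕ → ℕ, ∃ a, ¬ ∀ᶠ n in atTop, u a n ≤ H n)
    (c : Set ι) (hc : c.Countable) : ∃ a0, ∀ b ∈ c, b ≤ a0 := by
  have hunc := unc_of_unbounded u hu
  by_contra hcon
  push Not at hcon
  have h1 : ∀ b : ι, ∃ H : ℕ → ℕ, ∀ j : Iic b, ∀ᶠ n in atTop, u j.1 n ≤ H n := fun b =>
    hbdd (Iic b) (fun j => u j.1) (mk_Iic_lt' hι hunc b)
  choose h hh using h1
  have : Countable c := hc
  obtain ⟨H, hH⟩ := exists_countable_bound' (fun b : c => h b.1)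
  obtain ⟨a, ha⟩ := hu H
  obtain ⟨b, hbc, hb⟩ := hcon a
  apply ha
  filter_upwards [hh b ⟨a, hb.le⟩, hH ⟨b, hbc⟩] with n h1 h2
  exact h1.trans h2

/-- The case `𝔟 < 𝔡`. -/
theorem exists_NMP_of_b_lt_d {ι : Type} [LinearOrder ι] [WellFoundedLT ι]
    (hι : ∀ a : ι, #(Iio a) < #ι)
    (hbdd : ∀ (J : Type) (f : J → ℕ → ℕ), #J < #ι →
      ∃ H : ℕ → ℕ, ∀ j, ∀ᶠ n in atTop, f j n ≤ H n)
    (u : ι → ℕ → ℕ) (hu : ∀ H : ℕ → ℕ, ∃ a, ¬ ∀ᶠ n in atTop, u a n ≤ H n)
    (hnd : ∀ f : ι → ℕ → ℕ, ∃ g : ℕ → ℕ, ∀ a, ∃ᶠ n in atTop, f a n < g n) :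
    ∃ L : Filter ℕ, NMP L := by
  classical
  have hunc := unc_of_unbounded u hu
  have hinf : Infinite ι := infinite_iff.2 hunc.le
  have hneι : Nonempty ι := inferInstance
  obtain ⟨f, hf⟩ := wf_choice (ι := ι) (α := ℕ → ℕ)
    (fun a F x => (∀ b < a, ∀ᶠ n in atTop, F b n ≤ x n) ∧ (∀ n, u a n ≤ x n) ∧ Monotone x)
    (by
      rintro a F F' x hFF' ⟨h1, h2, h3⟩
      refine ⟨fun b hb => ?_, h2, h3⟩
      rw [← hFF' b hb]; exact h1 b hb)
    (by
      intro a F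
      obtain ⟨H, hH⟩ := hbdd (Iio a) (fun j => F j.1) (hι a)
      obtain ⟨G, hG1, hG2, hG3⟩ := exists_mono_majorant (fun n => H n + u a n)
      refine ⟨G, fun b hb => ?_, fun n => ?_, hG1⟩
      · filter_upwards [hH ⟨b, hb⟩] with n hn
        have := hG3 n
        omega
      · have := hG3 n
        omega)
  obtain ⟨g, hg⟩ := hnd f
  have hff : ∀ a b, a ≤ b → ∀ᶠ n in atTop, f a n ≤ f b n := by
    intro a b hab
    rcases eq_or_lt_of_le hab with h | h
    · subst h; exact Eventually.of_forall fun n => le_rfl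
    · exact (hf b).1 a h
  let T : ι → Set ℕ := fun a => {n | f a n < g n}
  have hT : ∀ a b, a ≤ b → ∀ᶠ n in atTop, n ∈ T b → n ∈ T a := by
    intro a b hab
    filter_upwards [hff a b hab] with n hn h
    exact lt_of_le_of_lt hn h
  let L : Filter ℕ :=
    { sets := {s | ∃ a : ι, ∀ᶠ k in atTop, k ∈ T a → k ∈ s}
      univ_sets := ⟨Classical.arbitrary ι, Eventually.of_forall fun _ _ => trivial⟩
      sets_of_superset := by
        rintro x y ⟨t, ht⟩ hxy
        exact ⟨t, ht.mono fun k hk hj => hxy (hk hj)⟩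
      inter_sets := by
        rintro x y ⟨t, ht⟩ ⟨t', ht'⟩
        refine ⟨max t t', ?_⟩
        filter_upwards [ht, ht', hT t _ (le_max_left t t'), hT t' _ (le_max_right t t')]
          with k hk hk' h1 h2 hj
        exact ⟨hk (h1 hj), hk' (h2 hj)⟩ }
  have hmem : ∀ s, s ∈ L ↔ ∃ a : ι, ∀ᶠ k in atTop, k ∈ T a → k ∈ s := fun s => Iff.rfl
  have hTL : ∀ a, T a ∈ L := fun a => by
    rw [hmem]; exact ⟨a, Eventually.of_forall fun _ h => h⟩
  refine ⟨L, ⟨?_, ?_, ?_, ?_⟩⟩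
  · rw [neBot_iff]
    intro hbot
    have : (∅ : Set ℕ) ∈ L := by rw [hbot]; exact mem_bot
    rw [hmem] at this
    obtain ⟨t, ht⟩ := this
    obtain ⟨k, hk1, hk2⟩ := ((hg t).and_eventually ht).exists
    exact hk2 hk1
  · intro s hs
    rw [hmem]
    exact ⟨Classical.arbitrary ι, Filter.Eventually.mono hs fun k hk _ => hk⟩
  · intro s hs
    have : ∀ n, ∃ a : ι, ∀ᶠ k in atTop, k ∈ T a → k ∈ s n := hs
    choose t ht using this
    obtain ⟨a0, ha0⟩ := countable_bounded hι hbdd u hu (range t) (countable_range t)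
    refine ⟨T a0, hTL a0, ?_⟩
    intro n
    filter_upwards [ht n, hT _ _ (ha0 _ (mem_range_self n))] with k h1 h2 h3
    exact h1 (h2 h3)
  · intro μ
    let G : ℕ → ℕ := fun k => (Finset.Ico k (μ k)).sup g
    obtain ⟨a, ha⟩ := hu G
    refine ⟨T a, hTL a, ?_⟩
    rw [not_eventually] at ha
    refine ha.mono ?_
    intro k hk j hj1 hj2 hjT
    have h1 : f a j < g j := hjT
    have h2 : f a k ≤ f a j := (hf a).2.2 hj1
    have h3 : u a k ≤ f a k := (hf a).2.1 k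
    have h4 : g j ≤ G k := Finset.le_sup (f := g) (Finset.mem_Ico.2 ⟨hj1, hj2⟩)
    omega

/-- The case `𝔱 = 𝔟`. -/
theorem exists_NMP_of_t_eq_b {ι : Type} [LinearOrder ι] [WellFoundedLT ι]
    (hι : ∀ a : ι, #(Iio a) < #ι)
    (hbdd : ∀ (J : Type) (f : J → ℕ → ℕ), #J < #ι →
      ∃ H : ℕ → ℕ, ∀ j, ∀ᶠ n in atTop, f j n ≤ H n)
    (u : ι → ℕ → ℕ) (hu : ∀ H : ℕ → ℕ, ∃ a, ¬ ∀ᶠ n in atTop, u a n ≤ H n)
    (htow : ∀ (J : Type) (T : J → Set ℕ), #J < #ι → (∀ j, (T j).Infinite) →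
      (∀ i j, (∀ᶠ k in atTop, k ∈ T i → k ∈ T j) ∨ (∀ᶠ k in atTop, k ∈ T j → k ∈ T i)) →
      ∃ P : Set ℕ, P.Infinite ∧ ∀ j, ∀ᶠ k in atTop, k ∈ P → k ∈ T j) :
    ∃ L : Filter ℕ, NMP L := by
  classical
  have hunc := unc_of_unbounded u hu
  have hinf : Infinite ι := infinite_iff.2 hunc.le
  have hneι : Nonempty ι := inferInstance
  obtain ⟨T, hT0⟩ := wf_choice (ι := ι) (α := Set ℕ)
    (fun a F x => ((∀ b < a, (F b).Infinite) ∧
        (∀ b c, b ≤ c → c < a → ∀ᶠ k in atTop, k ∈ F c → k ∈ F b)) →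
      (x.Infinite ∧ (∀ b < a, ∀ᶠ k in atTop, k ∈ x → k ∈ F b) ∧
        (∀ k ∈ x, ∀ k' ∈ x, k < k' → u a k ≤ k') ∧
        (∀ k ∈ x, ∀ k' ∈ x, k < k' → ∀ i ≤ k, u a i ≤ k')))
    (by
      rintro a F F' x hFF' h ⟨h1, h2⟩
      obtain ⟨h3, h4, h5, h6⟩ := h ⟨fun b hb => by rw [hFF' b hb]; exact h1 b hb,
        fun b c hbc hca => by
          rw [hFF' b (lt_of_le_of_lt hbc hca), hFF' c hca]; exact h2 b c hbc hca⟩
      exact ⟨h3, fun b hb => by rw [← hFF' b hb]; exact h4 b hb, h5, h6⟩)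
    (by
      intro a F
      by_cases hF : (∀ b < a, (F b).Infinite) ∧
        (∀ b c, b ≤ c → c < a → ∀ᶠ k in atTop, k ∈ F c → k ∈ F b)
      · obtain ⟨P, hP1, hP2⟩ := htow (Iio a) (fun j => F j.1) (hι a) (fun j => hF.1 j.1 j.2) (by
          intro i j
          rcases le_total i.1 j.1 with h | h
          · right; exact hF.2 _ _ h j.2
          · left; exact hF.2 _ _ h i.2)
        obtain ⟨G, hG1, hG2, hG3⟩ := exists_mono_majorant (u a)
        -- thin out `P`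
        have hnx : ∀ m, ∃ k ≥ m, k ∈ P := by
          intro m
          obtain ⟨k, hk1, hk2⟩ := hP1.exists_gt m
          exact ⟨k, hk2.le, hk1⟩
        choose nx hnx1 hnx2 using hnx
        let y : ℕ → ℕ := fun n => Nat.rec (nx 0) (fun _ z => nx (G z)) n
        have ys : ∀ n, y (n+1) = nx (G (y n)) := fun n => rfl
        have hyP : ∀ n, y n ∈ P := by
          intro n
          cases n with
          | zero => exact hnx2 _
          | succ n => rw [ys]; exact hnx2 _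
        have hystep : ∀ n, G (y n) ≤ y (n+1) := fun n => by rw [ys]; exact hnx1 _
        have hymono : StrictMono y := strictMono_nat_of_lt_succ fun n =>
          lt_of_lt_of_le (hG2 _) (hystep n)
        have hsp : ∀ n n', n < n' → G (y n) ≤ y n' := by
          intro n n' h
          exact (hystep n).trans (hymono.monotone h)
        refine ⟨range y, fun _ => ⟨infinite_range_of_injective hymono.injective, ?_, ?_, ?_⟩⟩
        · intro b hb
          filter_upwards [hP2 ⟨b, hb⟩] with k hk hky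
          apply hk
          obtain ⟨n, rfl⟩ := hky
          exact hyP n
        · rintro _ ⟨n, rfl⟩ _ ⟨n', rfl⟩ h
          exact (hG3 _).trans (hsp n n' (hymono.lt_iff_lt.1 h))
        · rintro _ ⟨n, rfl⟩ _ ⟨n', rfl⟩ h i hi
          exact ((hG3 _).trans (hG1 hi)).trans (hsp n n' (hymono.lt_iff_lt.1 h))
      · exact ⟨∅, fun h => absurd h hF⟩)
  have hcond : ∀ a, (∀ b < a, (T b).Infinite) ∧
      (∀ b c, b ≤ c → c < a → ∀ᶠ k in atTop, k ∈ T c → k ∈ T b) := by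
    intro a
    induction a using WellFoundedLT.induction with
    | ind a ih =>
      refine ⟨fun b hb => (hT0 b (ih b hb)).1, ?_⟩
      intro b c hbc hca
      rcases eq_or_lt_of_le hbc with h | h
      · subst h; exact Eventually.of_forall fun _ h => h
      · exact (hT0 c (ih c hca)).2.1 b h
  have hT1 : ∀ a, (T a).Infinite := fun a => (hT0 a (hcond a)).1
  have hT2 : ∀ a b, a ≤ b → ∀ᶠ k in atTop, k ∈ T b → k ∈ T a := by
    intro a b hab
    rcases eq_or_lt_of_le hab with h | h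
    · subst h; exact Eventually.of_forall fun _ h => h
    · exact (hT0 b (hcond b)).2.1 a h
  have hT3 : ∀ a, ∀ k ∈ T a, ∀ k' ∈ T a, k < k' → ∀ i ≤ k, u a i ≤ k' :=
    fun a => (hT0 a (hcond a)).2.2.2
  let L : Filter ℕ :=
    { sets := {s | ∃ a : ι, ∀ᶠ k in atTop, k ∈ T a → k ∈ s}
      univ_sets := ⟨Classical.arbitrary ι, Eventually.of_forall fun _ _ => trivial⟩
      sets_of_superset := by
        rintro x y ⟨t, ht⟩ hxy
        exact ⟨t, ht.mono fun k hk hj => hxy (hk hj)⟩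
      inter_sets := by
        rintro x y ⟨t, ht⟩ ⟨t', ht'⟩
        refine ⟨max t t', ?_⟩
        filter_upwards [ht, ht', hT2 t _ (le_max_left t t'), hT2 t' _ (le_max_right t t')]
          with k hk hk' h1 h2 hj
        exact ⟨hk (h1 hj), hk' (h2 hj)⟩ }
  have hmem : ∀ s, s ∈ L ↔ ∃ a : ι, ∀ᶠ k in atTop, k ∈ T a → k ∈ s := fun s => Iff.rfl
  have hTL : ∀ a, T a ∈ L := fun a => by
    rw [hmem]; exact ⟨a, Eventually.of_forall fun _ h => h⟩
  refine ⟨L, ⟨?_, ?_, ?_, ?_⟩⟩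
  · rw [neBot_iff]
    intro hbot
    have : (∅ : Set ℕ) ∈ L := by rw [hbot]; exact mem_bot
    rw [hmem] at this
    obtain ⟨t, ht⟩ := this
    obtain ⟨k, hk1, hk2⟩ := ((Nat.frequently_atTop_iff_infinite.2 (hT1 t)).and_eventually ht).exists
    exact hk2 hk1
  · intro s hs
    rw [hmem]
    exact ⟨Classical.arbitrary ι, Filter.Eventually.mono hs fun k hk _ => hk⟩
  · intro s hs
    have : ∀ n, ∃ a : ι, ∀ᶠ k in atTop, k ∈ T a → k ∈ s n := hs
    choose t ht using this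
    obtain ⟨a0, ha0⟩ := countable_bounded hι hbdd u hu (range t) (countable_range t)
    refine ⟨T a0, hTL a0, ?_⟩
    intro n
    filter_upwards [ht n, hT2 _ _ (ha0 _ (mem_range_self n))] with k h1 h2 h3
    exact h1 (h2 h3)
  · intro μ₀
    obtain ⟨μ, hμ1, hμ2, hμ3⟩ := exists_mono_majorant μ₀
    by_contra hcon
    push Not at hcon
    obtain ⟨a, ha⟩ := hu (fun k => μ (μ k))
    apply ha
    have h1 : ∀ᶠ k in atTop, ∃ j, k ≤ j ∧ j < μ k ∧ j ∈ T a := by
      have := hcon (T a) (hTL a)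
      filter_upwards [this] with k hk
      obtain ⟨j, h1, h2, h3⟩ := hk
      exact ⟨j, h1, lt_of_lt_of_le h2 (hμ3 k), h3⟩
    rw [eventually_atTop] at h1
    obtain ⟨N, hN⟩ := h1
    filter_upwards [eventually_ge_atTop N] with k hk
    obtain ⟨j, hj1, hj2, hj3⟩ := hN k hk
    obtain ⟨j', hj1', hj2', hj3'⟩ := hN (j+1) (by omega)
    have h2 := hT3 a j hj3 j' hj3' (by omega) k hj1
    have h3 : μ (j+1) ≤ μ (μ k) := hμ1 (by omega)
    omega

/-- Topologically non-meager P-filters are `NMP`. -/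
theorem NMP_of_not_meagre (L : Filter ℕ) (h1 : L.NeBot) (h2 : ∀ s : Set ℕ, sᶜ.Finite → s ∈ L)
    (h3 : ∀ s : ℕ → Set ℕ, (∀ n, s n ∈ L) → ∃ P ∈ L, ∀ n, (P \ s n).Finite)
    (h4 : ¬ IsMeagre {x : ℕ → Bool | {n | x n = true} ∈ L}) : NMP L := by
  refine ⟨h1, ?_, ?_, ?_⟩
  · rw [← Nat.cofinite_eq_atTop]
    intro s hs
    exact h2 s (mem_cofinite.1 hs)
  · intro s hs
    obtain ⟨P, hP, hPs⟩ := h3 s hs
    refine ⟨P, hP, fun n => ?_⟩
    rw [← Nat.cofinite_eq_atTop, eventually_cofinite]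
    refine (hPs n).subset ?_
    intro k hk
    simpa using hk
  · intro μ
    by_contra hcon
    push Not at hcon
    apply h4
    let K : ℕ → Set (ℕ → Bool) := fun N => {x | ∀ k ≥ N, ∃ j, k ≤ j ∧ j < μ k ∧ x j = true}
    have hsub : {x : ℕ → Bool | {n | x n = true} ∈ L} ⊆ ⋃ N, K N := by
      intro x hx
      have := hcon _ hx
      obtain ⟨N, hN⟩ := eventually_atTop.1 this
      refine mem_iUnion.2 ⟨N, fun k hk => ?_⟩
      have := hN k hk
      obtain ⟨j, a, b, c⟩ := this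
      exact ⟨j, a, b, c⟩
    refine IsMeagre.mono hsub (isMeagre_iUnion fun N => IsNowhereDense.isMeagre ?_)
    have hcl : IsClosed (K N) := by
      have : K N = ⋂ k ∈ {k | N ≤ k}, ⋃ j ∈ {j | k ≤ j ∧ j < μ k}, {x : ℕ → Bool | x j = true} := by
        ext x
        simp only [K, mem_iInter, mem_iUnion, mem_ofPred, exists_prop, and_assoc, ge_iff_le]
      rw [this]
      refine isClosed_biInter fun k _ => ?_
      refine Set.Finite.isClosed_biUnion ?_ fun j _ => ?_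
      · exact (Set.finite_Iio (μ k)).subset fun j hj => hj.2
      · exact isClosed_singleton.preimage (continuous_apply (A := fun _ => Bool) j)
    rw [hcl.isNowhereDense_iff, interior_eq_empty_iff_dense_compl]
    rw [dense_iff_inter_open]
    rintro V hV ⟨x0, hx0⟩
    have ht : Tendsto (fun k : ℕ => fun j => if k ≤ j then false else x0 j) atTop (𝓝 x0) := by
      rw [tendsto_pi_nhds]
      intro j
      refine tendsto_const_nhds.congr' ?_
      filter_upwards [eventually_gt_atTop j] with k hk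
      rw [if_neg (by omega)]
    obtain ⟨k, hk1, hk2⟩ := ((ht.eventually (hV.mem_nhds hx0)).and (eventually_ge_atTop N)).exists
    refine ⟨_, hk1, ?_⟩
    intro hK
    obtain ⟨j, hj1, hj2, hj3⟩ := hK k hk2
    simp [hj1] at hj3

end Pool.Agent.H538R3.CB
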