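import Mathlib
import Pool.Agent.H538R3.CBComb2

set_option autoImplicit false

open Filter Set Cardinal Topology Order

namespace Pool.Agent.H538R3.CB

/-- Covering property `cof([κ]^ω) ≤ κ`, for all index types of size at most `κ`. -/
def Cov (κ : Cardinal.{0}) : Prop :=
  ∀ ι : Type, #ι ≤ κ → ∃ F : Set (Set ι), (∀ s ∈ F, s.Countable) ∧
    (∀ s : Set ι, s.Countable → ∃ t ∈ F, s ⊆ t) ∧ #F ≤ κ

lemma cov_aleph0 : Cov ℵ₀ := by
  intro ι hι
  have : Countable ι := mk_le_aleph0_iff.1 hι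
  refine ⟨{Set.univ}, ?_, ?_, ?_⟩
  · rintro s rfl
    exact countable_univ
  · intro s _
    exact ⟨Set.univ, rfl, subset_univ _⟩
  · rw [mk_singleton]
    exact one_le_aleph0

lemma succ_bounded {κ : Cardinal.{0}} (hκ : ℵ₀ ≤ κ) (c : Set (succ κ).ord.ToType)
    (hc : c.Countable) : ∃ a, ∀ b ∈ c, b < a := by
  by_contra hcon
  push Not at hcon
  choose b hb1 hb2 using hcon
  have hIic : ∀ b : (succ κ).ord.ToType, #(Iic b) ≤ κ := by
    intro b
    have h1 : #(Iio b) ≤ κ := by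
      have : #(Iio b) < Cardinal.mk (succ κ).ord.ToType := mk_Iio_lt b (by simp)
      rw [mk_ord_toType] at this
      exact lt_succ_iff.1 this
    have h3 : (Iic b : Set _) = insert b (Iio b) := by
      ext x; simp [le_iff_eq_or_lt]
    rw [h3]
    refine mk_insert_le.trans ?_
    calc #(Iio b) + 1 ≤ κ + κ := add_le_add h1 (one_le_aleph0.trans hκ)
      _ = κ := add_eq_self hκ
  have h1 : Cardinal.mk (succ κ).ord.ToType ≤ #(Σ b : c, Iic b.1) :=
    mk_le_of_injective (f := fun a => (⟨⟨b a, hb1 a⟩, ⟨a, hb2 a⟩⟩ : Σ b : c, Iic b.1)) (by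
      intro x y hxy
      have h2 := congrArg (fun p : (Σ b : c, Iic b.1) => p.2.1) hxy
      exact h2)
  rw [mk_ord_toType, mk_sigma] at h1
  have h2 : Cardinal.sum (fun b : c => #(Iic b.1)) ≤ κ := by
    calc Cardinal.sum (fun b : c => #(Iic b.1)) ≤ Cardinal.sum (fun _ : c => κ) :=
          sum_le_sum _ _ fun b => hIic b.1
      _ = #c * κ := by simp
      _ ≤ ℵ₀ * κ := by
        gcongr
        exact mk_le_aleph0_iff.2 hc
      _ = κ := aleph0_mul_eq hκ
  exact absurd (h1.trans h2) (not_le.2 (lt_succ κ))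

lemma cov_succ {κ : Cardinal.{0}} (hκ : ℵ₀ ≤ κ) (h : Cov κ) : Cov (succ κ) := by
  intro ι hι
  have hIio : ∀ b : (succ κ).ord.ToType, #(Iio b) ≤ κ := by
    intro b
    have : #(Iio b) < Cardinal.mk (succ κ).ord.ToType := mk_Iio_lt b (by simp)
    rw [mk_ord_toType] at this
    exact lt_succ_iff.1 this
  have hι' : #ι ≤ Cardinal.mk (succ κ).ord.ToType := by rw [mk_ord_toType]; exact hι
  obtain ⟨e⟩ := (le_def _ _).1 hι'
  have h1 := fun a : (succ κ).ord.ToType => h (Iio a) (hIio a)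
  choose F hF1 hF2 hF3 using h1
  refine ⟨⋃ a, (fun s : Set (Iio a) => e ⁻¹' (Subtype.val '' s)) '' F a, ?_, ?_, ?_⟩
  · intro s hs
    obtain ⟨a, t, ht, rfl⟩ := mem_iUnion.1 hs
    exact ((hF1 a t ht).image _).preimage_of_injOn e.injective.injOn
  · intro s hs
    obtain ⟨a, ha⟩ := succ_bounded hκ (e '' s) (hs.image _)
    obtain ⟨t, ht, hst⟩ := hF2 a {x : Iio a | x.1 ∈ e '' s}
      ((hs.image _).preimage_of_injOn Subtype.val_injective.injOn)
    refine ⟨_, mem_iUnion.2 ⟨a, t, ht, rfl⟩, ?_⟩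
    intro x hx
    have hxa : e x < a := ha _ ⟨x, hx, rfl⟩
    exact ⟨⟨e x, hxa⟩, hst ⟨x, hx, rfl⟩, rfl⟩
  · refine (mk_iUnion_le_sum_mk).trans ?_
    calc Cardinal.sum (fun a => #((fun s : Set (Iio a) => e ⁻¹' (Subtype.val '' s)) '' F a))
        ≤ Cardinal.sum (fun _ : (succ κ).ord.ToType => κ) :=
          sum_le_sum _ _ fun a => mk_image_le.trans (hF3 a)
      _ = succ κ * κ := by simp
      _ = succ κ := mul_eq_left (hκ.trans (le_succ κ)) (le_succ κ)
          (aleph0_pos.trans_le hκ).ne'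

lemma cov_aleph (n : ℕ) : Cov (ℵ_ (n : Ordinal)) := by
  induction n with
  | zero => simpa using cov_aleph0
  | succ n ih =>
    have : ((n + 1 : ℕ) : Ordinal) = (n : Ordinal) + 1 := by
      push_cast; rfl
    rw [this, ← succ_aleph]
    exact cov_succ (aleph0_le_aleph _) ih

lemma cov_of_lt_aleph_omega {κ : Cardinal.{0}} (h0 : ℵ₀ ≤ κ) (h : κ < ℵ_ Ordinal.omega0) :
    Cov κ := by
  obtain ⟨o, rfl⟩ := mem_range_aleph_iff.2 h0
  obtain ⟨n, rfl⟩ := Ordinal.lt_omega0.1 (aleph_lt_aleph.1 h)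
  exact cov_aleph n

end Pool.Agent.H538R3.CB
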