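import Mathlib
import Pool.Agent.H538R3.CBCard

set_option autoImplicit false

open Set Cardinal Order

namespace Pool.Agent.H538R3.Ditor

open Pool.Agent.H538R3.CB (wf_choice)

/-- `ω_n` as a type. -/
abbrev Om (n : ℕ) : Type := (ℵ_ (n : Ordinal.{0})).ord.ToType

/-- A subset of size at most `κ` of `κ⁺` is bounded. -/
lemma succ_bounded {κ : Cardinal.{0}} (hκ : ℵ₀ ≤ κ) (c : Set (succ κ).ord.ToType)
    (hc : #c ≤ κ) : ∃ a, ∀ b ∈ c, b < a := by
  by_contra hcon
  push Not at hcon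
  choose b hb1 hb2 using hcon
  have hIic : ∀ b : (succ κ).ord.ToType, #(Iic b) ≤ κ := by
    intro b
    have h1 : #(Iio b) ≤ κ := by
      have : #(Iio b) < Cardinal.mk (succ κ).ord.ToType := mk_Iio_lt b (by simp)
      rw [mk_ord_toType] at this
      exact lt_succ_iff.1 this
    have h3 : (Iic b : Set _) = insert b (Iio b) := by
      ext x; simp [le_iff_eq_or_lt]
    rw [h3]
    refine mk_insert_le.trans ?_
    calc #(Iio b) + 1 ≤ κ + κ := add_le_add h1 (one_le_aleph0.trans hκ)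
      _ = κ := add_eq_self hκ
  have h1 : Cardinal.mk (succ κ).ord.ToType ≤ #(Σ b : c, Iic b.1) :=
    mk_le_of_injective (f := fun a => (⟨⟨b a, hb1 a⟩, ⟨a, hb2 a⟩⟩ : Σ b : c, Iic b.1)) (by
      intro x y hxy
      have h2 := congrArg (fun p : (Σ b : c, Iic b.1) => p.2.1) hxy
      exact h2)
  rw [mk_ord_toType, mk_sigma] at h1
  have h2 : Cardinal.sum (fun b : c => #(Iic b.1)) ≤ κ := by
    calc Cardinal.sum (fun b : c => #(Iic b.1)) ≤ Cardinal.sum (fun _ : c => κ) :=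
          sum_le_sum _ _ fun b => hIic b.1
      _ = #c * κ := by simp
      _ ≤ κ * κ := by gcongr
      _ = κ := mul_eq_self hκ
  exact absurd (h1.trans h2) (not_le.2 (lt_succ κ))

/-- A totally preordered set with all initial segments of size at most `κ` has size at most
`κ⁺`. -/
lemma total_small {A : Type} {κ : Cardinal.{0}} (hκ : ℵ₀ ≤ κ) (r : A → A → Prop)
    (htot : ∀ i j, r i j ∨ r j i) (hsm : ∀ j, #{i | r i j} ≤ κ) : #A ≤ succ κ := by
  by_contra hcon
  push Not at hcon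
  obtain ⟨B, hB⟩ := le_mk_iff_exists_set.1 hcon.le
  have hU : #(⋃ j : B, {i | r i j.1}) ≤ succ κ := by
    refine mk_iUnion_le_sum_mk.trans ?_
    calc Cardinal.sum (fun j : B => #{i | r i j.1}) ≤ Cardinal.sum (fun _ : B => κ) :=
          sum_le_sum _ _ fun j => hsm j.1
      _ = #B * κ := by simp
      _ = succ κ * κ := by rw [hB]
      _ = succ κ := mul_eq_left (hκ.trans (le_succ κ)) (le_succ κ) (aleph0_pos.trans_le hκ).ne'
  have hne : ∃ i, i ∉ (⋃ j : B, {i | r i j.1}) := by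
    by_contra hall
    push Not at hall
    have huniv : (⋃ j : B, {i | r i j.1}) = Set.univ := eq_univ_of_forall hall
    rw [huniv, mk_univ] at hU
    exact absurd hU (not_le.2 hcon)
  obtain ⟨i, hi⟩ := hne
  have hsub : B ⊆ {j | r j i} := by
    intro j hj
    rcases htot i j with h | h
    · exact absurd (mem_iUnion.2 ⟨⟨j, hj⟩, h⟩) hi
    · exact h
  have := (mk_le_mk_of_subset hsub).trans (hsm i)
  rw [hB] at this
  exact absurd this (not_le.2 (lt_succ κ))

lemma exists_nat_of_lt {c : Cardinal.{0}} (h : c < ℵ_ Ordinal.omega0) :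
    ∃ n : ℕ, c ≤ ℵ_ (n : Ordinal) := by
  rcases lt_or_ge c ℵ₀ with h0 | h0
  · refine ⟨0, ?_⟩
    simpa using h0.le
  · obtain ⟨o, rfl⟩ := mem_range_aleph_iff.2 h0
    obtain ⟨n, rfl⟩ := Ordinal.lt_omega0.1 (aleph_lt_aleph.1 h)
    exact ⟨n, le_rfl⟩

lemma succ_aleph_nat (n : ℕ) : succ (ℵ_ (n : Ordinal.{0})) = ℵ_ ((n + 1 : ℕ) : Ordinal) := by
  rw [succ_aleph]; push_cast; rfl

section Main

variable {L : Type} [SemilatticeSup L]

/-- Index type of size `ℵ_(ω+1)`. -/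
abbrev Idx : Type := (succ (ℵ_ Ordinal.omega0)).ord.ToType

lemma mk_Idx : #Idx = succ (ℵ_ Ordinal.omega0) := mk_ord_toType _

lemma mk_Iio_Idx (i : Idx) : #(Iio i) ≤ ℵ_ Ordinal.omega0 := by
  have : #(Iio i) < #Idx := mk_Iio_lt i (by simp)
  rw [mk_Idx] at this
  exact lt_succ_iff.1 this

/-- Step 1: a sequence of elements none of which lies below the join of two earlier ones. -/
lemma exists_seq (hL : #L = succ (ℵ_ Ordinal.omega0)) (hs : ∀ a : L, #(Iic a) < ℵ_ Ordinal.omega0) :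
    ∃ e : Idx → L, ∀ i, ∀ j < i, ∀ k < i, ¬ e i ≤ e j ⊔ e k := by
  have : Nonempty L := by
    rw [← mk_ne_zero_iff, hL]
    exact (bot_lt_succ _).ne'
  refine wf_choice (ι := Idx) (α := L) (fun i F x => ∀ j < i, ∀ k < i, ¬ x ≤ F j ⊔ F k) ?_ ?_
  · intro a F F' x hFF' h j hj k hk
    rw [← hFF' j hj, ← hFF' k hk]
    exact h j hj k hk
  · intro i F
    by_contra hcon
    push Not at hcon
    have hcov : (⋃ p : Iio i × Iio i, Iic (F p.1.1 ⊔ F p.2.1)) = Set.univ := by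
      refine eq_univ_of_forall fun x => ?_
      obtain ⟨j, hj, k, hk, h⟩ := hcon x
      exact mem_iUnion.2 ⟨(⟨j, hj⟩, ⟨k, hk⟩), h⟩
    have h1 : #(⋃ p : Iio i × Iio i, Iic (F p.1.1 ⊔ F p.2.1)) ≤ ℵ_ Ordinal.omega0 := by
      refine mk_iUnion_le_sum_mk.trans ?_
      calc Cardinal.sum (fun p : Iio i × Iio i => #(Iic (F p.1.1 ⊔ F p.2.1)))
          ≤ Cardinal.sum (fun _ : Iio i × Iio i => ℵ_ Ordinal.omega0) :=
            sum_le_sum _ _ fun p => (hs _).le
        _ = #(Iio i) * #(Iio i) * ℵ_ Ordinal.omega0 := by simp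
        _ ≤ ℵ_ Ordinal.omega0 * ℵ_ Ordinal.omega0 * ℵ_ Ordinal.omega0 := by
          gcongr <;> exact mk_Iio_Idx i
        _ = ℵ_ Ordinal.omega0 := by
          rw [mul_eq_self (aleph0_le_aleph _), mul_eq_self (aleph0_le_aleph _)]
    rw [hcov, mk_univ, hL] at h1
    exact absurd h1 (not_le.2 (lt_succ _))

/-- Main combinatorial statement. -/
theorem exists_almost_disjoint (hL : #L = succ (ℵ_ Ordinal.omega0))
    (hs : ∀ a : L, #(Iic a) < ℵ_ Ordinal.omega0)
    (hb : ∀ x y z : L, x ≤ y ⊔ z ∨ y ≤ x ⊔ z ∨ z ≤ x ⊔ y) :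
    ∃ h : Idx → ∀ n : ℕ, Om (n + 2), ∀ δ : Idx, ∃ g : Idx → ℕ,
      ∀ i < δ, ∀ j < δ, i ≠ j → ∀ n, g i ≤ n → g j ≤ n → h i n ≠ h j n := by
  classical
  obtain ⟨e, he⟩ := exists_seq hL hs
  let Q : ℕ → L → Prop := fun n a => #(Iic a) ≤ ℵ_ (n : Ordinal)
  have hQmono : ∀ {m n : ℕ} {a : L}, m ≤ n → Q m a → Q n a := by
    intro m n a hmn h
    exact h.trans (aleph_le_aleph.2 (by exact_mod_cast hmn))
  have hQanti : ∀ {n : ℕ} {a b : L}, a ≤ b → Q n b → Q n a := by
    intro n a b hab h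
    exact (mk_le_mk_of_subset (Iic_subset_Iic.2 hab)).trans h
  have hQex : ∀ a : L, ∃ n, Q n a := fun a => exists_nat_of_lt (hs a)
  have heinj : Function.Injective e := by
    intro i j hij
    by_contra hne
    rcases lt_or_gt_of_ne hne with h | h
    · exact he j i h i h (by rw [← hij]; exact le_sup_left)
    · exact he i j h j h (by rw [hij]; exact le_sup_left)
  -- total preorder
  have htot : ∀ k i j : Idx, i < k → j < k → e i ≤ e j ⊔ e k ∨ e j ≤ e i ⊔ e k := by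
    intro k i j hi hj
    rcases hb (e i) (e j) (e k) with h | h | h
    · left; exact h
    · right; exact h
    · exact absurd h (he k i hi j hj)
  -- second subadditivity
  have hS2 : ∀ n (k i j : Idx), i < k → j < k → Q n (e i ⊔ e k) → Q n (e j ⊔ e k) →
      Q n (e i ⊔ e j) := by
    intro n k i j hi hj h1 h2
    rcases htot k i j hi hj with h | h
    · exact hQanti (sup_le h le_sup_left) h2
    · exact hQanti (sup_le le_sup_left h) h1
  -- local smallness
  have hLS : ∀ n (k : Idx), #{i | i < k ∧ Q n (e i ⊔ e k)} ≤ ℵ_ ((n + 1 : ℕ) : Ordinal) := by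
    intro n k
    rw [← succ_aleph_nat]
    refine total_small (aleph0_le_aleph _) (A := {i | i < k ∧ Q n (e i ⊔ e k)})
      (fun i j => e i.1 ≤ e j.1 ⊔ e k) ?_ ?_
    · intro i j
      exact htot k i.1 j.1 i.2.1 j.2.1
    · intro j
      have h1 : #{i : {i | i < k ∧ Q n (e i ⊔ e k)} | e i.1 ≤ e j.1 ⊔ e k} ≤
          #(Iic (e j.1 ⊔ e k)) := by
        refine mk_le_of_injective (f := fun i => (⟨e i.1.1, i.2⟩ : Iic (e j.1 ⊔ e k))) ?_
        intro x y hxy
        have := heinj (Subtype.ext_iff.1 hxy)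
        exact Subtype.ext (Subtype.ext this)
      exact h1.trans j.2.2
  -- colouring
  have hcol : ∀ n : ℕ, ∃ h : Idx → Om (n + 2),
      ∀ j, ∀ i < j, Q n (e i ⊔ e j) → h i ≠ h j := by
    intro n
    have hne : Nonempty (Om (n + 2)) := by
      rw [← mk_ne_zero_iff, mk_ord_toType]
      exact (aleph0_pos.trans_le (aleph0_le_aleph _)).ne'
    obtain ⟨h, hh⟩ := wf_choice (ι := Idx) (α := Om (n + 2))
      (fun j F x => ∀ i < j, Q n (e i ⊔ e j) → F i ≠ x) (by
        intro j F F' x hFF' h i hi hQ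
        rw [← hFF' i hi]
        exact h i hi hQ) (by
        intro j F
        by_contra hcon
        push Not at hcon
        have hcov : (F '' {i | i < j ∧ Q n (e i ⊔ e j)}) = Set.univ := by
          refine eq_univ_of_forall fun x => ?_
          obtain ⟨i, hi, hQ, hx⟩ := hcon x
          exact ⟨i, ⟨hi, hQ⟩, hx⟩
        have h1 := (mk_image_le (f := F) (s := {i | i < j ∧ Q n (e i ⊔ e j)})).trans (hLS n j)
        rw [hcov, mk_univ, mk_ord_toType, aleph_le_aleph] at h1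
        have h2 : n + 2 ≤ n + 1 := by exact_mod_cast h1
        omega)
    exact ⟨h, fun j i hi hQ => hh j i hi hQ⟩
  choose h hh using hcol
  refine ⟨fun i n => h n i, fun δ => ?_⟩
  choose lev hlev using hQex
  refine ⟨fun i => lev (e i ⊔ e δ), fun i hi j hj hij n h1 h2 => ?_⟩
  have hi' := hQmono h1 (hlev (e i ⊔ e δ))
  have hj' := hQmono h2 (hlev (e j ⊔ e δ))
  rcases lt_or_gt_of_ne hij with hlt | hlt
  · exact hh n j i hlt (hS2 n δ i j hi hj hi' hj')
  · exact (hh n i j hlt (hS2 n δ j i hj hi hj' hi')).symm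

end Main

/-- Almost disjoint sequences contradict Chang's conjecture. -/
theorem no_chang (h : Idx → ∀ n : ℕ, Om (n + 2))
    (hh : ∀ δ : Idx, ∃ g : Idx → ℕ,
      ∀ i < δ, ∀ j < δ, i ≠ j → ∀ n, g i ≤ n → g j ≤ n → h i n ≠ h j n) (k : ℕ)
    (U : Set Idx) (hU : #U = ℵ_ Ordinal.omega0) :
    ∃ F : ℕ → List Idx → Idx, ∀ X : Set Idx, #X = ℵ_ ((k + 1 : ℕ) : Ordinal) →
      #(X ∩ U : Set Idx) ≤ ℵ_ (k : Ordinal) → ¬ ∀ n l, (∀ x ∈ l, x ∈ X) → F n l ∈ X := by
  classical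
  have hemb : ∀ n : ℕ, Nonempty (Om (n + 2) ↪ U) := by
    intro n
    rw [← Cardinal.le_def, mk_ord_toType, hU, aleph_le_aleph]
    exact (Ordinal.natCast_lt_omega0 _).le
  have emb := fun n => (hemb n).some
  have hIdx : Nonempty Idx := by
    rw [← mk_ne_zero_iff, mk_Idx]
    exact (bot_lt_succ _).ne'
  refine ⟨fun n l => match l with
    | [] => Classical.arbitrary Idx
    | i :: _ => (emb n (h i n)).1, fun X hX hXU hcl => ?_⟩
  have hXle : #X ≤ ℵ_ Ordinal.omega0 := by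
    rw [hX, aleph_le_aleph]
    exact (Ordinal.natCast_lt_omega0 _).le
  obtain ⟨δ, hδ⟩ := succ_bounded (aleph0_le_aleph _) X hXle
  obtain ⟨g, hg⟩ := hh δ
  have hA : ∀ n : ℕ, #{i | i ∈ X ∧ g i ≤ n} ≤ ℵ_ (k : Ordinal) := by
    intro n
    refine le_trans ?_ hXU
    have hmem : ∀ i : {i | i ∈ X ∧ g i ≤ n}, (emb n (h i.1 n)).1 ∈ (X ∩ U : Set Idx) := by
      intro i
      refine ⟨?_, (emb n (h i.1 n)).2⟩
      exact hcl n [i.1] (by simpa using i.2.1)
    refine mk_le_of_injective (f := fun i => (⟨_, hmem i⟩ : (X ∩ U : Set Idx))) ?_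
    intro i j hij
    by_contra hne
    have h0 : (emb n (h i.1 n)).1 = (emb n (h j.1 n)).1 := by
      have h00 := Subtype.ext_iff.1 hij
      exact h00
    have h1 := (emb n).injective (Subtype.ext h0)
    exact hg i.1 (hδ _ i.2.1) j.1 (hδ _ j.2.1) (fun h => hne (Subtype.ext h)) n i.2.2 j.2.2 h1
  have hXU' : X = ⋃ n : ℕ, {i | i ∈ X ∧ g i ≤ n} := by
    ext i
    simp only [mem_iUnion, mem_ofPred]
    exact ⟨fun hi => ⟨g i, hi, le_rfl⟩, fun ⟨_, hi, _⟩ => hi⟩
  have h2 : #X ≤ ℵ_ (k : Ordinal) := by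
    rw [hXU']
    refine mk_iUnion_le_sum_mk.trans ?_
    calc Cardinal.sum (fun n : ℕ => #{i | i ∈ X ∧ g i ≤ n})
        ≤ Cardinal.sum (fun _ : ℕ => ℵ_ (k : Ordinal)) := sum_le_sum _ _ hA
      _ = ℵ₀ * ℵ_ (k : Ordinal) := by simp
      _ = ℵ_ (k : Ordinal) := aleph0_mul_eq (aleph0_le_aleph _)
  rw [hX, aleph_le_aleph] at h2
  have h3 : k + 1 ≤ k := by exact_mod_cast h2
  omega

end Pool.Agent.H538R3.Ditor
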