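import Mathlib
import Pool.Agent.H538R3.Ditor

set_option autoImplicit false

open Set Cardinal Order

namespace Pool.Agent.H538R3.Ditor

open Pool.Agent.H538R3.CB (wf_choice)

/-- A tower of tree orders: `B j n` is the set of `n`-predecessors of `j`. -/
structure TreeTower (B : Idx → ℕ → Set Idx) : Prop where
  sub : ∀ j n, B j n ⊆ Iio j
  mono : ∀ j n, B j n ⊆ B j (n + 1)
  cov : ∀ j, ∀ i < j, ∃ n, i ∈ B j n
  coh : ∀ j n, ∀ i ∈ B j n, B j n ∩ Iio i = B i n
  small : ∀ j n, #(B j n) < ℵ_ Ordinal.omega0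

/-- The functional form. -/
structure SubLS (F : Idx → Idx → ℕ) : Prop where
  s1 : ∀ i j k, i < j → j < k → F i k ≤ max (F i j) (F j k)
  s2 : ∀ i j k, i < j → j < k → F i j ≤ max (F i k) (F j k)
  ls : ∀ j n, #{i | i < j ∧ F i j ≤ n} < ℵ_ Ordinal.omega0

lemma TreeTower.mono_le {B : Idx → ℕ → Set Idx} (h : TreeTower B) (j : Idx) {m n : ℕ}
    (hmn : m ≤ n) : B j m ⊆ B j n := by
  induction hmn with
  | refl => exact Subset.rfl
  | step _ ih => exact ih.trans (h.mono j _)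

theorem TreeTower.toSub {B : Idx → ℕ → Set Idx} (h : TreeTower B) :
    ∃ F, SubLS F := by
  classical
  have hc : ∀ i j : Idx, ∃ n, i < j → i ∈ B j n ∧ ∀ m, i ∈ B j m → n ≤ m := by
    intro i j
    by_cases hij : i < j
    · have hex : ∃ n, i ∈ B j n := h.cov j i hij
      exact ⟨Nat.find hex, fun _ => ⟨Nat.find_spec hex, fun m hm => Nat.find_min' hex hm⟩⟩
    · exact ⟨0, fun h' => absurd h' hij⟩
  choose F hF using hc
  have hmem : ∀ i j, i < j → ∀ n, F i j ≤ n → i ∈ B j n := fun i j hij n hn =>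
    h.mono_le j hn (hF i j hij).1
  refine ⟨F, ?_, ?_, ?_⟩
  · intro i j k hij hjk
    refine (hF i k (hij.trans hjk)).2 _ ?_
    have h1 := hmem i j hij _ (le_max_left (F i j) (F j k))
    have h2 := hmem j k hjk _ (le_max_right (F i j) (F j k))
    rw [← h.coh k _ j h2] at h1
    exact h1.1
  · intro i j k hij hjk
    refine (hF i j hij).2 _ ?_
    have h1 := hmem i k (hij.trans hjk) _ (le_max_left (F i k) (F j k))
    have h2 := hmem j k hjk _ (le_max_right (F i k) (F j k))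
    rw [← h.coh k _ j h2]
    exact ⟨h1, hij⟩
  · intro j n
    refine lt_of_le_of_lt (mk_le_mk_of_subset ?_) (h.small j n)
    intro i hi
    exact hmem i j hi.1 n hi.2

/-- The three element form of breadth at most two. -/
def Three (L : Type) [SemilatticeSup L] : Prop :=
  ∀ x y z : L, x ≤ y ⊔ z ∨ y ≤ x ⊔ z ∨ z ≤ x ⊔ y

/-- The underlying type of the semilattice. -/
@[ext] structure SL where
  idx : Idx
  lvl : ℕ

section FromSub

variable (F : Idx → Idx → ℕ)

def sle (p q : SL) : Prop :=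
  p.lvl ≤ q.lvl ∧ (p.idx = q.idx ∨ (p.idx < q.idx ∧ F p.idx q.idx ≤ q.lvl))

open Classical in
noncomputable def ssup (p q : SL) : SL :=
  if p.idx = q.idx then ⟨p.idx, max p.lvl q.lvl⟩
  else if p.idx < q.idx then ⟨q.idx, max (max p.lvl q.lvl) (F p.idx q.idx)⟩
  else ⟨p.idx, max (max p.lvl q.lvl) (F q.idx p.idx)⟩

variable {F}

lemma sle_refl (p : SL) : sle F p p := ⟨le_rfl, Or.inl rfl⟩

lemma sle_trans (h : SubLS F) {p q r : SL} (h1 : sle F p q) (h2 : sle F q r) :
    sle F p r := by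
  obtain ⟨i, n⟩ := p
  obtain ⟨j, m⟩ := q
  obtain ⟨k, l⟩ := r
  obtain ⟨a1, a2⟩ := h1
  obtain ⟨b1, b2⟩ := h2
  simp only at a1 a2 b1 b2
  refine ⟨a1.trans b1, ?_⟩
  simp only
  rcases a2 with rfl | ⟨a2, a3⟩
  · exact b2
  · rcases b2 with rfl | ⟨b2, b3⟩
    · exact Or.inr ⟨a2, a3.trans b1⟩
    · exact Or.inr ⟨a2.trans b2, (h.s1 i j k a2 b2).trans (max_le (a3.trans b1) b3)⟩

lemma sle_antisymm {p q : SL} (h1 : sle F p q) (h2 : sle F q p) : p = q := by
  obtain ⟨i, n⟩ := p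
  obtain ⟨j, m⟩ := q
  obtain ⟨a1, a2⟩ := h1
  obtain ⟨b1, b2⟩ := h2
  simp only at a1 a2 b1 b2
  have hn : n = m := le_antisymm a1 b1
  subst hn
  rcases a2 with rfl | ⟨a2, a3⟩
  · rfl
  · rcases b2 with rfl | ⟨b2, b3⟩
    · rfl
    · exact absurd (a2.trans b2) (lt_irrefl _)

lemma sle_sup_left (p q : SL) : sle F p (ssup F p q) := by
  obtain ⟨i, n⟩ := p
  obtain ⟨j, m⟩ := q
  unfold ssup sle
  simp only
  split_ifs with h1 h2
  · subst h1; simp
  · simp only
    exact ⟨by omega, Or.inr ⟨h2, by omega⟩⟩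
  · simp only
    refine ⟨by omega, Or.inl ?_⟩
    trivial

lemma sle_sup_right (p q : SL) : sle F q (ssup F p q) := by
  obtain ⟨i, n⟩ := p
  obtain ⟨j, m⟩ := q
  unfold ssup sle
  simp only
  split_ifs with h1 h2
  · subst h1; simp
  · simp only
    refine ⟨by omega, Or.inl ?_⟩
    trivial
  · simp only
    have h3 : j < i := lt_of_le_of_ne (not_lt.1 h2) (Ne.symm h1)
    exact ⟨by omega, Or.inr ⟨h3, by omega⟩⟩

lemma ssup_le (h : SubLS F) {p q r : SL} (h1 : sle F p r) (h2 : sle F q r) :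
    sle F (ssup F p q) r := by
  obtain ⟨i, n⟩ := p
  obtain ⟨j, m⟩ := q
  obtain ⟨k, l⟩ := r
  obtain ⟨a1, a2⟩ := h1
  obtain ⟨b1, b2⟩ := h2
  simp only at a1 a2 b1 b2
  unfold ssup sle
  simp only
  split_ifs with c1 c2
  · simp only
    exact ⟨by omega, a2⟩
  · simp only
    refine ⟨?_, b2⟩
    rcases b2 with rfl | ⟨b2, b3⟩
    · rcases a2 with rfl | ⟨a2, a3⟩
      · exact absurd rfl c1
      · omega
    · rcases a2 with rfl | ⟨a2, a3⟩
      · exact absurd (c2.trans b2) (lt_irrefl _)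
      · have := h.s2 i j k c2 b2
        omega
  · simp only
    have c3 : j < i := lt_of_le_of_ne (not_lt.1 c2) (Ne.symm c1)
    refine ⟨?_, a2⟩
    rcases a2 with rfl | ⟨a2, a3⟩
    · rcases b2 with rfl | ⟨b2, b3⟩
      · exact absurd rfl c1
      · omega
    · rcases b2 with rfl | ⟨b2, b3⟩
      · exact absurd (c3.trans a2) (lt_irrefl _)
      · have := h.s2 j i k c3 a2
        omega

/-- The semilattice of a subadditive function. -/
@[reducible] noncomputable def slat (h : SubLS F) : SemilatticeSup SL where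
  le := sle F
  lt := fun p q => sle F p q ∧ ¬ sle F q p
  lt_iff_le_not_ge := fun _ _ => Iff.rfl
  le_refl := sle_refl
  le_trans := fun _ _ _ => sle_trans h
  le_antisymm := fun _ _ => sle_antisymm
  sup := ssup F
  le_sup_left := sle_sup_left
  le_sup_right := sle_sup_right
  sup_le := fun _ _ _ => ssup_le h

lemma mk_SL : #SL = succ (ℵ_ Ordinal.omega0) := by
  have e : SL ≃ Idx × ℕ :=
    ⟨fun p => (p.idx, p.lvl), fun p => ⟨p.1, p.2⟩, fun _ => rfl, fun _ => rfl⟩
  have : #SL = #Idx * #ℕ := by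
    rw [mk_congr e]
    simp
  rw [this, mk_Idx, mk_nat]
  exact mul_eq_left ((aleph0_le_aleph _).trans (le_succ _))
    ((aleph0_le_aleph _).trans (le_succ _)) aleph0_ne_zero

lemma slat_small (h : SubLS F) (p : SL) : #{q : SL | sle F q p} < ℵ_ Ordinal.omega0 := by
  have hω : ℵ₀ < ℵ_ Ordinal.omega0 := by
    rw [← aleph_zero, aleph_lt_aleph]; exact Ordinal.omega0_pos
  let S : Set Idx := insert p.idx {i | i < p.idx ∧ F i p.idx ≤ p.lvl}
  have hS : #S < ℵ_ Ordinal.omega0 := by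
    refine lt_of_le_of_lt mk_insert_le ?_
    exact add_lt_of_lt (aleph0_le_aleph _) (h.ls p.idx p.lvl) (one_lt_aleph0.trans hω)
  have hmem : ∀ q : {q : SL | sle F q p}, q.1.idx ∈ S := by
    intro q
    rcases q.2.2 with h2 | ⟨h2, h3⟩
    · exact Or.inl h2
    · exact Or.inr ⟨h2, h3⟩
  have h1 : #{q : SL | sle F q p} ≤ #(S × ℕ) := by
    refine mk_le_of_injective (f := fun q => ((⟨q.1.idx, hmem q⟩ : S), q.1.lvl)) ?_
    intro x y hxy
    have h2 := congrArg (fun z : S × ℕ => z.1.1) hxy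
    have h3 := congrArg (fun z : S × ℕ => z.2) hxy
    exact Subtype.ext (SL.ext h2 h3)
  refine lt_of_le_of_lt h1 ?_
  rw [mk_prod, lift_id, lift_id, mk_nat]
  exact mul_lt_of_lt (aleph0_le_aleph _) hS hω

lemma slat_three (h : SubLS F) : @Three SL (slat h) := by
  let _ := slat h
  -- it suffices to treat elements with a top index
  have key : ∀ (i j k : Idx) (n m l : ℕ), i ≤ k → j ≤ k →
      (⟨i, n⟩ : SL) ≤ (⟨j, m⟩ : SL) ⊔ (⟨k, l⟩ : SL) ∨
      (⟨j, m⟩ : SL) ≤ (⟨i, n⟩ : SL) ⊔ (⟨k, l⟩ : SL) := by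
    intro i j k n m l hik hjk
    have hle : ∀ (i : Idx) (n : ℕ), i ≤ k → ∀ M : ℕ, n ≤ M → (i < k → F i k ≤ M) →
        sle F ⟨i, n⟩ ⟨k, M⟩ := by
      intro i n hik M h1 h2
      refine ⟨h1, ?_⟩
      rcases hik.eq_or_lt with h3 | h3
      · exact Or.inl h3
      · exact Or.inr ⟨h3, h2 h3⟩
    have hsup : ∀ (i : Idx) (n : ℕ), i ≤ k → ∃ M : ℕ, ssup F ⟨i, n⟩ ⟨k, l⟩ = ⟨k, M⟩ ∧
        (M = max (max n l) (if i < k then F i k else 0)) := by
      intro i n hik
      rcases hik.eq_or_lt with h3 | h3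
      · subst h3
        refine ⟨max n l, ?_, ?_⟩
        · simp [ssup]
        · simp
      · refine ⟨_, ?_, rfl⟩
        simp [ssup, h3, h3.ne]
    obtain ⟨M1, hM1, hM1'⟩ := hsup i n hik
    obtain ⟨M2, hM2, hM2'⟩ := hsup j m hjk
    rcases le_total M1 M2 with hM | hM
    · left
      show sle F ⟨i, n⟩ (ssup F ⟨j, m⟩ ⟨k, l⟩)
      rw [hM2]
      refine hle i n hik M2 ?_ ?_
      · omega
      · intro h4
        rw [if_pos h4] at hM1'
        omega
    · right
      show sle F ⟨j, m⟩ (ssup F ⟨i, n⟩ ⟨k, l⟩)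
      rw [hM1]
      refine hle j m hjk M1 ?_ ?_
      · omega
      · intro h4
        rw [if_pos h4] at hM2'
        omega
  rintro ⟨i, n⟩ ⟨j, m⟩ ⟨k, l⟩
  rcases le_total i j with hij | hij
  · rcases le_total j k with hjk | hjk
    · rcases key i j k n m l (hij.trans hjk) hjk with h1 | h1
      · left; exact h1
      · right; left; exact h1
    · rcases key i k j n l m hij hjk with h1 | h1
      · left; rw [sup_comm]; exact h1
      · right; right; exact h1
  · rcases le_total i k with hik | hik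
    · rcases key i j k n m l hik (hij.trans hik) with h1 | h1
      · left; exact h1
      · right; left; exact h1
    · rcases key j k i m l n hij hik with h1 | h1
      · right; left; rw [sup_comm]; exact h1
      · right; right; rw [sup_comm]; exact h1

end FromSub

end Pool.Agent.H538R3.Ditor
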