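import Mathlib
import Pool.Agent.H538R3.Ditor2

set_option autoImplicit false

open Set Cardinal Order

namespace Pool.Agent.H538R3.Ditor

open Pool.Agent.H538R3.CB (wf_choice)

section Trans

variable {T : Idx → Idx → Prop}

lemma trans_lt (hT : ∀ i j, T i j → i < j) {i j : Idx} (h : Relation.TransGen T i j) : i < j := by
  induction h with
  | single h => exact hT _ _ h
  | tail _ h ih => exact ih.trans (hT _ _ h)

lemma trans_tree (hT : ∀ i j, T i j → i < j)
    (tp : ∀ i j k, T i k → T j k → i < j → T i j) (k : Idx) :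
    ∀ i j, Relation.TransGen T i k → Relation.TransGen T j k → i < j →
      Relation.TransGen T i j := by
  induction k using WellFoundedLT.induction with
  | ind k ih =>
    intro i j hik hjk hij
    have dec : ∀ i, Relation.TransGen T i k → ∃ i', T i' k ∧ (i = i' ∨ Relation.TransGen T i i') := by
      intro i h
      cases h with
      | single h => exact ⟨i, h, Or.inl rfl⟩
      | tail h1 h2 => exact ⟨_, h2, Or.inr h1⟩
    obtain ⟨i', hi', hi⟩ := dec i hik
    obtain ⟨j', hj', hj⟩ := dec j hjk
    rcases lt_trichotomy i' j' with h | h | h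
    · have h1 : T i' j' := tp i' j' k hi' hj' h
      have h2 : Relation.TransGen T i j' := by
        rcases hi with rfl | hi
        · exact Relation.TransGen.single h1
        · exact Relation.TransGen.tail hi h1
      rcases hj with rfl | hj
      · exact h2
      · exact ih j' (hT _ _ hj') i j h2 hj hij
    · subst h
      rcases hj with rfl | hj
      · rcases hi with rfl | hi
        · exact absurd hij (lt_irrefl _)
        · exact hi
      · rcases hi with rfl | hi
        · exact absurd (hij.trans (trans_lt hT hj)) (lt_irrefl _)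
        · exact ih i' (hT _ _ hi') i j hi hj hij
    · have h1 : T j' i' := tp j' i' k hj' hi' h
      have h2 : Relation.TransGen T j i' := by
        rcases hj with rfl | hj
        · exact Relation.TransGen.single h1
        · exact Relation.TransGen.tail hj h1
      rcases hi with rfl | hi
      · exact absurd (hij.trans (trans_lt hT h2)) (lt_irrefl _)
      · exact ih i' (hT _ _ hi') i j hi h2 hij

lemma trans_small (hT : ∀ i j, T i j → i < j) {κ : Cardinal.{0}} (hκ : ℵ₀ ≤ κ)
    (hs : ∀ k, #{i | T i k} ≤ κ) (k : Idx) : #{i | Relation.TransGen T i k} ≤ κ := by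
  induction k using WellFoundedLT.induction with
  | ind k ih =>
    have hsub : {i | Relation.TransGen T i k} ⊆
        ⋃ j : {i | T i k}, insert j.1 {i | Relation.TransGen T i j.1} := by
      intro i hi
      cases hi with
      | single h => exact mem_iUnion.2 ⟨⟨i, h⟩, Or.inl rfl⟩
      | tail h1 h2 => exact mem_iUnion.2 ⟨⟨_, h2⟩, Or.inr h1⟩
    refine (mk_le_mk_of_subset hsub).trans (mk_iUnion_le_sum_mk.trans ?_)
    calc Cardinal.sum (fun j : {i | T i k} => #(insert j.1 {i | Relation.TransGen T i j.1} : Set Idx))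
        ≤ Cardinal.sum (fun _ : {i | T i k} => κ) := by
          refine sum_le_sum _ _ fun j => mk_insert_le.trans ?_
          calc _ ≤ κ + κ := add_le_add (ih j.1 (hT _ _ j.2)) (one_le_aleph0.trans hκ)
            _ = κ := add_eq_self hκ
      _ = #{i | T i k} * κ := by simp
      _ ≤ κ * κ := by gcongr; exact hs k
      _ = κ := mul_eq_self hκ

end Trans

/-- A semilattice gives a tower of trees. -/
theorem exists_tower {L : Type} [SemilatticeSup L] (hL : #L = succ (ℵ_ Ordinal.omega0))
    (hs : ∀ a : L, #(Iic a) < ℵ_ Ordinal.omega0) (hb : Three L) :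
    ∃ B, TreeTower B := by
  classical
  obtain ⟨e, he⟩ := exists_seq hL hs
  let Q : ℕ → L → Prop := fun n a => #(Iic a) ≤ ℵ_ (n : Ordinal)
  have hQmono : ∀ {m n : ℕ} {a : L}, m ≤ n → Q m a → Q n a := by
    intro m n a hmn h
    exact h.trans (aleph_le_aleph.2 (by exact_mod_cast hmn))
  have hQanti : ∀ {n : ℕ} {a b : L}, a ≤ b → Q n b → Q n a := by
    intro n a b hab h
    exact (mk_le_mk_of_subset (Iic_subset_Iic.2 hab)).trans h
  have hQex : ∀ a : L, ∃ n, Q n a := fun a => exists_nat_of_lt (hs a)
  have heinj : Function.Injective e := by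
    intro i j hij
    by_contra hne
    rcases lt_or_gt_of_ne hne with h | h
    · exact he j i h i h (by rw [← hij]; exact le_sup_left)
    · exact he i j h j h (by rw [hij]; exact le_sup_left)
  have htot : ∀ k i j : Idx, i < k → j < k → e i ≤ e j ⊔ e k ∨ e j ≤ e i ⊔ e k := by
    intro k i j hi hj
    rcases hb (e i) (e j) (e k) with h | h | h
    · left; exact h
    · right; exact h
    · exact absurd h (he k i hi j hj)
  have hS2 : ∀ n (k i j : Idx), i < k → j < k → Q n (e i ⊔ e k) → Q n (e j ⊔ e k) →
      Q n (e i ⊔ e j) := by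
    intro n k i j hi hj h1 h2
    rcases htot k i j hi hj with h | h
    · exact hQanti (sup_le h le_sup_left) h2
    · exact hQanti (sup_le le_sup_left h) h1
  have hLS : ∀ n (k : Idx), #{i | i < k ∧ Q n (e i ⊔ e k)} ≤ ℵ_ ((n + 1 : ℕ) : Ordinal) := by
    intro n k
    rw [← succ_aleph_nat]
    refine total_small (aleph0_le_aleph _) (A := {i | i < k ∧ Q n (e i ⊔ e k)})
      (fun i j => e i.1 ≤ e j.1 ⊔ e k) ?_ ?_
    · intro i j
      exact htot k i.1 j.1 i.2.1 j.2.1
    · intro j
      have h1 : #{i : {i | i < k ∧ Q n (e i ⊔ e k)} | e i.1 ≤ e j.1 ⊔ e k} ≤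
          #(Iic (e j.1 ⊔ e k)) := by
        refine mk_le_of_injective (f := fun i => (⟨e i.1.1, i.2⟩ : Iic (e j.1 ⊔ e k))) ?_
        intro x y hxy
        have := heinj (Subtype.ext_iff.1 hxy)
        exact Subtype.ext (Subtype.ext this)
      exact h1.trans j.2.2
  let T : ℕ → Idx → Idx → Prop := fun n i k => i < k ∧ Q n (e i ⊔ e k)
  have hT : ∀ n i j, T n i j → i < j := fun n i j h => h.1
  refine ⟨fun k n => {i | Relation.TransGen (T n) i k}, ?_, ?_, ?_, ?_, ?_⟩
  · intro k n i hi
    exact trans_lt (hT n) hi
  · intro k n i hi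
    have hi' : Relation.TransGen (T n) i k := hi
    show Relation.TransGen (T (n + 1)) i k
    induction hi' with
    | single h => exact Relation.TransGen.single ⟨h.1, hQmono (Nat.le_succ n) h.2⟩
    | tail h1 h2 ih => exact Relation.TransGen.tail (ih h1) ⟨h2.1, hQmono (Nat.le_succ n) h2.2⟩
  · intro k i hik
    obtain ⟨n, hn⟩ := hQex (e i ⊔ e k)
    exact ⟨n, Relation.TransGen.single ⟨hik, hn⟩⟩
  · intro k n j hj
    ext i
    constructor
    · rintro ⟨h1, h2⟩
      exact trans_tree (hT n) (fun i j k h1 h2 h3 => ⟨h3, hS2 n k i j h1.1 h2.1 h1.2 h2.2⟩)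
        k i j h1 hj h2
    · intro h1
      exact ⟨Relation.TransGen.trans h1 hj, trans_lt (hT n) h1⟩
  · intro k n
    refine lt_of_le_of_lt (trans_small (hT n) (κ := ℵ_ ((n + 1 : ℕ) : Ordinal))
      (aleph0_le_aleph _) (hLS n) k) ?_
    exact aleph_lt_aleph.2 (Ordinal.natCast_lt_omega0 _)

/-- Three element form implies the finite subset form. -/
lemma breadth_of_three {L : Type} [SemilatticeSup L] (h : Three L) :
    ∀ (X : Finset L) (hX : X.Nonempty), ∃ (Y : Finset L) (hY : Y.Nonempty),
    Y ⊆ X ∧ Y.card ≤ 2 ∧ Y.sup' hY id = X.sup' hX id := by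
  classical
  -- every nonempty finite set has two elements with the same join
  have key : ∀ (X : Finset L) (hX : X.Nonempty), ∃ y ∈ X, ∃ z ∈ X, y ⊔ z = X.sup' hX id := by
    intro X hX
    induction hX using Finset.Nonempty.cons_induction with
    | singleton a => exact ⟨a, by simp, a, by simp, by simp⟩
    | cons a X ha hX ih =>
      obtain ⟨y, hy, z, hz, hyz⟩ := ih
      have hs : (Finset.cons a X ha).sup' (Finset.cons_nonempty ha) id = a ⊔ (y ⊔ z) := by
        rw [Finset.sup'_cons hX, hyz]; rfl
      rcases h a y z with h1 | h1 | h1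
      · refine ⟨y, by simp [hy], z, by simp [hz], ?_⟩
        rw [hs]; exact (sup_eq_right.2 h1).symm
      · refine ⟨a, by simp, z, by simp [hz], ?_⟩
        rw [hs]
        exact le_antisymm (sup_le le_sup_left (le_sup_right.trans le_sup_right))
          (sup_le le_sup_left (sup_le h1 le_sup_right))
      · refine ⟨a, by simp, y, by simp [hy], ?_⟩
        rw [hs]
        exact le_antisymm (sup_le le_sup_left (le_sup_left.trans le_sup_right))
          (sup_le le_sup_left (sup_le le_sup_right h1))
  intro X hX
  obtain ⟨y, hy, z, hz, hyz⟩ := key X hX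
  refine ⟨{y, z}, by simp, ?_, Finset.card_le_two, ?_⟩
  · intro t ht
    simp only [Finset.mem_insert, Finset.mem_singleton] at ht
    rcases ht with rfl | rfl <;> assumption
  · rw [← hyz]
    apply le_antisymm
    · refine Finset.sup'_le _ _ ?_
      intro t ht
      simp only [Finset.mem_insert, Finset.mem_singleton] at ht
      rcases ht with rfl | rfl
      · exact le_sup_left
      · exact le_sup_right
    · exact sup_le (Finset.le_sup' (f := id) (by simp)) (Finset.le_sup' (f := id) (by simp))

end Pool.Agent.H538R3.Ditor
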