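import Mathlib
import Pool.Agent.H538R3.Ditor3

set_option autoImplicit false

open Set Cardinal Order

namespace Pool.Agent.H538R3.Ditor

open Pool.Agent.H538R3.CB (wf_choice)

/-- An intermediate square like principle. -/
structure ESeq (E : Idx → Set Idx) : Prop where
  sub : ∀ b, E b ⊆ Iio b
  coh : ∀ b, ∀ a ∈ E b, E a = E b ∩ Iio a
  small : ∀ b, #(E b) < ℵ_ Ordinal.omega0
  cases : ∀ b, (∀ c < b, ∃ d ∈ E b, c ≤ d) ∨
    ∃ s : ℕ → Idx, Monotone s ∧ (∀ k, s k < b) ∧ (∀ c < b, ∃ k, c ≤ s k) ∧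
      (∀ a ∈ E b, a = s 0 ∨ (s 0 ∈ E b ∧ a < s 0))

/-- One step of the recursion. -/
structure Good (E : Idx → Set Idx) (B : Idx → ℕ → Set Idx) (b : Idx) (X : ℕ → Set Idx) : Prop where
  sub : ∀ n, X n ⊆ Iio b
  mono : ∀ n, X n ⊆ X (n + 1)
  cov : ∀ i < b, ∃ n, i ∈ X n
  coh : ∀ n, ∀ i ∈ X n, X n ∩ Iio i = B i n
  small : ∀ n, #(X n) ≤ ℵ_ (n : Ordinal)
  acc : ∀ n : ℕ, #(E b) ≤ ℵ_ (n : Ordinal) → E b ⊆ X n

lemma Good.mono_le {E : Idx → Set Idx} {B : Idx → ℕ → Set Idx} {b : Idx} {X : ℕ → Set Idx}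
    (h : Good E B b X) {m n : ℕ} (hmn : m ≤ n) : X m ⊆ X n := by
  induction hmn with
  | refl => exact Subset.rfl
  | step _ ih => exact ih.trans (h.mono _)

lemma good_exists {E : Idx → Set Idx} (hE : ESeq E) (B : Idx → ℕ → Set Idx) (b : Idx)
    (hB : ∀ a < b, Good E B a (B a)) : ∃ X, Good E B b X := by
  classical
  obtain ⟨m, hm0⟩ := exists_nat_of_lt (hE.small b)
  have hex : ∃ m : ℕ, #(E b) ≤ ℵ_ (m : Ordinal) := ⟨m, hm0⟩
  clear hm0
  obtain ⟨m, hm1, hm2⟩ : ∃ m : ℕ, #(E b) ≤ ℵ_ (m : Ordinal) ∧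
      ∀ n : ℕ, #(E b) ≤ ℵ_ (n : Ordinal) → m ≤ n :=
    ⟨Nat.find hex, Nat.find_spec hex, fun n hn => Nat.find_min' hex hn⟩
  have hEsm : ∀ a ∈ E b, ∀ n : ℕ, m ≤ n → E a ⊆ B a n := by
    intro a ha n hn
    refine (hB a (hE.sub b ha)).acc n ?_
    have h1 : #(E a) ≤ #(E b) := by
      rw [hE.coh b a ha]; exact mk_le_mk_of_subset inter_subset_left
    exact h1.trans (hm1.trans (aleph_le_aleph.2 (by exact_mod_cast hn)))
  -- closed initial segments
  let P : ℕ → Idx → Set Idx := fun n a => insert a (B a n)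
  have hPlt : ∀ n a, a < b → P n a ⊆ Iic a := by
    intro n a ha x hx
    rcases hx with rfl | hx
    · exact mem_Iic.2 le_rfl
    · exact mem_Iic.2 (le_of_lt (mem_Iio.1 ((hB a ha).sub n hx)))
  have hPcoh : ∀ n a, a < b → ∀ i ∈ P n a, P n a ∩ Iio i = B i n := by
    intro n a ha i hi
    rcases hi with rfl | hi
    · ext x
      constructor
      · rintro ⟨rfl | hx, hx2⟩
        · exact absurd (mem_Iio.1 hx2) (lt_irrefl _)
        · exact hx
      · intro hx
        exact ⟨Or.inr hx, (hB i ha).sub n hx⟩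
    · rw [← (hB a ha).coh n i hi]
      ext x
      constructor
      · rintro ⟨rfl | hx, hx2⟩
        · exact absurd (lt_trans (mem_Iio.1 hx2) (mem_Iio.1 ((hB x ha).sub n hi))) (lt_irrefl _)
        · exact ⟨hx, hx2⟩
      · rintro ⟨hx, hx2⟩
        exact ⟨Or.inr hx, hx2⟩
  have hPsub : ∀ n a, a < b → ∀ i ∈ P n a, P n i ⊆ P n a := by
    intro n a ha i hi x hx
    rcases hx with rfl | hx
    · exact hi
    · rw [← hPcoh n a ha i hi] at hx
      exact hx.1
  have hPmono : ∀ n n' a, a < b → n ≤ n' → P n a ⊆ P n' a := by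
    intro n n' a ha hn
    exact insert_subset_insert ((hB a ha).mono_le hn)
  have hPcard : ∀ n a, a < b → #(P n a) ≤ ℵ_ (n : Ordinal) := by
    intro n a ha
    refine mk_insert_le.trans ?_
    calc _ ≤ ℵ_ (n : Ordinal) + ℵ_ (n : Ordinal) :=
          add_le_add ((hB a ha).small n) (one_le_aleph0.trans (aleph0_le_aleph _))
      _ = ℵ_ (n : Ordinal) := add_eq_self (aleph0_le_aleph _)
  have hPcov : ∀ a < b, ∀ i ≤ a, ∃ n, i ∈ P n a := by
    intro a ha i hi
    rcases hi.eq_or_lt with rfl | hi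
    · exact ⟨0, Or.inl rfl⟩
    · obtain ⟨n, hn⟩ := (hB a ha).cov i hi
      exact ⟨n, Or.inr hn⟩
  rcases hE.cases b with hub | ⟨s, hs1, hs2, hs3, hs4⟩
  · -- unbounded case
    have hdir : ∀ n, m ≤ n → ∀ a ∈ E b, ∀ a' ∈ E b, a ≤ a' → P n a ⊆ P n a' := by
      intro n hn a ha a' ha' haa'
      refine hPsub n a' (hE.sub b ha') a ?_
      rcases haa'.eq_or_lt with rfl | hlt
      · exact Or.inl rfl
      · refine Or.inr (hEsm a' ha' n hn ?_)
        rw [hE.coh b a' ha']
        exact ⟨ha, hlt⟩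
    refine ⟨fun n => if m ≤ n then ⋃ a : E b, P n a.1 else ∅, ?_, ?_, ?_, ?_, ?_, ?_⟩
    · intro n x hx
      split_ifs at hx with hmn
      · obtain ⟨a, hxa⟩ := mem_iUnion.1 hx
        exact mem_Iio.2 (lt_of_le_of_lt (mem_Iic.1 (hPlt n a.1 (hE.sub b a.2) hxa))
          (mem_Iio.1 (hE.sub b a.2)))
      · exact absurd hx (notMem_empty _)
    · intro n x hx
      split_ifs at hx with hmn
      · obtain ⟨a, hxa⟩ := mem_iUnion.1 hx
        rw [if_pos (by omega)]
        exact mem_iUnion.2 ⟨a, hPmono n (n + 1) a.1 (hE.sub b a.2) (by omega) hxa⟩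
      · exact absurd hx (notMem_empty _)
    · intro i hi
      obtain ⟨a, ha, hia⟩ := hub i hi
      obtain ⟨n, hn⟩ := hPcov a (hE.sub b ha) i hia
      refine ⟨max m n, ?_⟩
      rw [if_pos (le_max_left _ _)]
      exact mem_iUnion.2 ⟨⟨a, ha⟩, hPmono n _ a (hE.sub b ha) (le_max_right _ _) hn⟩
    · intro n i hi
      split_ifs at hi ⊢ with hmn
      · obtain ⟨a, hia⟩ := mem_iUnion.1 hi
        ext x
        constructor
        · rintro ⟨hx1, hx2⟩
          obtain ⟨a', hxa'⟩ := mem_iUnion.1 hx1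
          rcases le_total a.1 a'.1 with h | h
          · have h1 := hdir n hmn a.1 a.2 a'.1 a'.2 h hia
            rw [← hPcoh n a'.1 (hE.sub b a'.2) i h1]
            exact ⟨hxa', hx2⟩
          · have h1 := hdir n hmn a'.1 a'.2 a.1 a.2 h hxa'
            rw [← hPcoh n a.1 (hE.sub b a.2) i hia]
            exact ⟨h1, hx2⟩
        · intro hx
          rw [← hPcoh n a.1 (hE.sub b a.2) i hia] at hx
          exact ⟨mem_iUnion.2 ⟨a, hx.1⟩, hx.2⟩
      · exact absurd hi (notMem_empty _)
    · intro n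
      split_ifs with hmn
      · refine mk_iUnion_le_sum_mk.trans ?_
        calc Cardinal.sum (fun a : E b => #(P n a.1))
            ≤ Cardinal.sum (fun _ : E b => ℵ_ (n : Ordinal)) :=
              sum_le_sum _ _ fun a => hPcard n a.1 (hE.sub b a.2)
          _ = #(E b) * ℵ_ (n : Ordinal) := by simp
          _ ≤ ℵ_ (n : Ordinal) * ℵ_ (n : Ordinal) := by
            gcongr
            exact hm1.trans (aleph_le_aleph.2 (by exact_mod_cast hmn))
          _ = ℵ_ (n : Ordinal) := mul_eq_self (aleph0_le_aleph _)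
      · simp
    · intro n hn a ha
      rw [if_pos (hm2 n hn)]
      exact mem_iUnion.2 ⟨⟨a, ha⟩, Or.inl rfl⟩
  · -- countable cofinality
    let ch : ℕ → ℕ → Prop := fun n k => ∀ j < k, s j ∈ P n (s (j + 1))
    let K : ℕ → ℕ := fun n => Nat.findGreatest (ch n) n
    have hch0 : ∀ n, ch n 0 := fun n j hj => absurd hj (Nat.not_lt_zero _)
    have hK : ∀ n, ch n (K n) := by
      intro n
      exact Nat.findGreatest_spec (P := ch n) (Nat.zero_le n) (hch0 n)
    have hchmono : ∀ n n' k, n ≤ n' → ch n k → ch n' k := by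
      intro n n' k hn h j hj
      exact hPmono n n' _ (hs2 _) hn (h j hj)
    have hKmono : ∀ n n', n ≤ n' → K n ≤ K n' := by
      intro n n' hn
      refine Nat.le_findGreatest ?_ (hchmono n n' _ hn (hK n))
      exact (Nat.findGreatest_le n).trans hn
    have hKunb : ∀ k, ∃ n, k ≤ K n := by
      intro k
      have h1 : ∀ j, ∃ n, s j ∈ P n (s (j + 1)) := fun j =>
        hPcov _ (hs2 _) _ (hs1 (Nat.le_succ j))
      choose f hf using h1
      refine ⟨(Finset.range k).sup f + k, Nat.le_findGreatest (by omega) ?_⟩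
      intro j hj
      refine hPmono (f j) _ _ (hs2 _) ?_ (hf j)
      have : f j ≤ (Finset.range k).sup f := Finset.le_sup (Finset.mem_range.2 hj)
      omega
    have hchain : ∀ n k, ch n k → ∀ j ≤ k, s j ∈ P n (s k) := by
      intro n k
      induction k with
      | zero =>
        intro _ j hj
        have : j = 0 := by omega
        subst this
        exact Or.inl rfl
      | succ k ih =>
        intro h j hj
        rcases hj.eq_or_lt with rfl | hj
        · exact Or.inl rfl
        · have h1 := ih (fun j hj => h j (by omega)) j (by omega)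
          exact hPsub n _ (hs2 _) _ (h k (by omega)) h1
    refine ⟨fun n => if m ≤ n then P n (s (K n)) else ∅, ?_, ?_, ?_, ?_, ?_, ?_⟩
    · intro n x hx
      split_ifs at hx with hmn
      · exact lt_of_le_of_lt (hPlt n _ (hs2 _) hx) (hs2 _)
      · exact absurd hx (notMem_empty _)
    · intro n x hx
      split_ifs at hx with hmn
      · rw [if_pos (by omega)]
        have h1 := hPmono n (n + 1) _ (hs2 _) (by omega) hx
        exact hPsub (n + 1) _ (hs2 _) _
          (hchain (n + 1) (K (n + 1)) (hK (n + 1)) (K n) (hKmono n (n + 1) (by omega))) h1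
      · exact absurd hx (notMem_empty _)
    · intro i hi
      obtain ⟨k, hk⟩ := hs3 i hi
      obtain ⟨n, hn⟩ := hKunb k
      have h1 : i ≤ s (K n) := hk.trans (hs1 hn)
      obtain ⟨n', hn'⟩ := hPcov _ (hs2 (K n)) i h1
      refine ⟨max m (max n n'), ?_⟩
      rw [if_pos (le_max_left _ _)]
      have h2 := hPmono n' (max m (max n n')) _ (hs2 _)
        ((le_max_right _ _).trans (le_max_right _ _)) hn'
      exact hPsub _ _ (hs2 _) _ (hchain _ _ (hK _) (K n)
        (hKmono n _ ((le_max_left _ _).trans (le_max_right _ _)))) h2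
    · intro n i hi
      split_ifs at hi ⊢ with hmn
      · exact hPcoh n _ (hs2 _) i hi
      · exact absurd hi (notMem_empty _)
    · intro n
      split_ifs with hmn
      · exact hPcard n _ (hs2 _)
      · simp
    · intro n hn a ha
      have hmn := hm2 n hn
      rw [if_pos hmn]
      have h0 : s 0 ∈ P n (s (K n)) := hchain n (K n) (hK n) 0 (Nat.zero_le _)
      rcases hs4 a ha with rfl | ⟨h1, h2⟩
      · exact h0
      · refine hPsub n _ (hs2 _) _ h0 (Or.inr (hEsm (s 0) h1 n hmn ?_))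
        rw [hE.coh b (s 0) h1]
        exact ⟨ha, h2⟩

theorem tower_of_eseq {E : Idx → Set Idx} (hE : ESeq E) : ∃ B, TreeTower B := by
  classical
  obtain ⟨B, hB⟩ := wf_choice (ι := Idx) (α := ℕ → Set Idx)
    (fun b B X => (∀ a < b, Good E B a (B a)) → Good E B b X) (by
      intro b B B' X hBB' h hgood
      have hgood' : ∀ a < b, Good E B a (B a) := by
        intro a ha
        have h1 := hgood a ha
        rw [← hBB' a ha] at h1
        refine ⟨h1.sub, h1.mono, h1.cov, ?_, h1.small, h1.acc⟩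
        intro n i hi
        rw [h1.coh n i hi, hBB' i ((h1.sub n hi).trans ha)]
      have h2 := h hgood'
      refine ⟨h2.sub, h2.mono, h2.cov, ?_, h2.small, h2.acc⟩
      intro n i hi
      rw [h2.coh n i hi, hBB' i (h2.sub n hi)]) (by
      intro b B
      by_cases h : ∀ a < b, Good E B a (B a)
      · obtain ⟨X, hX⟩ := good_exists hE B b h
        exact ⟨X, fun _ => hX⟩
      · exact ⟨fun _ => ∅, fun h' => absurd h' h⟩)
  have hall : ∀ b, Good E B b (B b) := by
    intro b
    induction b using WellFoundedLT.induction with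
    | ind b ih => exact hB b ih
  refine ⟨B, fun j n => (hall j).sub n, fun j n => (hall j).mono n, fun j => (hall j).cov,
    fun j n => (hall j).coh n, fun j n => ?_⟩
  exact lt_of_le_of_lt ((hall j).small n) (aleph_lt_aleph.2 (Ordinal.natCast_lt_omega0 _))

end Pool.Agent.H538R3.Ditor
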