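import Mathlib
import Pool.Agent.H538R3.Ditor4

set_option autoImplicit false

open Set Cardinal Order

namespace Pool.Agent.H538R3.Ditor

/-- A square sequence at `ℵ_ω`. -/
structure SqSeq (C : Idx → Set Idx) : Prop where
  sub : ∀ b, IsSuccLimit b → C b ⊆ Iio b
  unb : ∀ b, IsSuccLimit b → ∀ c < b, ∃ d ∈ C b, c < d
  ini : ∀ b, IsSuccLimit b → ∀ a < b, #(C b ∩ Iio a : Set Idx) < ℵ_ Ordinal.omega0
  acc : ∀ b, IsSuccLimit b → ∀ a < b, IsSuccLimit a → (∀ c < a, ∃ d ∈ C b, c < d ∧ d < a) →
    a ∈ C b ∧ C a = C b ∩ Iio a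

open Classical in
def accSet (C : Idx → Set Idx) (b : Idx) : Set Idx :=
  {a | IsSuccLimit b ∧ #(C b) < ℵ_ Ordinal.omega0 ∧ a ∈ C b ∧ IsSuccLimit a ∧
    ∀ c < a, ∃ d ∈ C b, c < d ∧ d < a}

/-- A nonempty bounded set of indices has a least upper bound. -/
lemma exists_lub (S : Set Idx) (c : Idx) (hc : ∀ x ∈ S, x ≤ c) :
    ∃ σ, (∀ x ∈ S, x ≤ σ) ∧ σ ≤ c ∧ ∀ y < σ, ∃ x ∈ S, y < x := by
  have hne : {y | ∀ x ∈ S, x ≤ y}.Nonempty := ⟨c, hc⟩
  refine ⟨wellFounded_lt.min _ hne, wellFounded_lt.min_mem _ hne, ?_, ?_⟩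
  · by_contra hcon
    push Not at hcon
    exact wellFounded_lt.not_lt_min {y | ∀ x ∈ S, x ≤ y} (x := c) hc hcon
  · intro y hy
    by_contra hcon
    push Not at hcon
    exact wellFounded_lt.not_lt_min {y | ∀ x ∈ S, x ≤ y} (x := y) hcon hy

lemma limit_of {σ : Idx} (S : Set Idx) (hne : S.Nonempty) (h : ∀ x ∈ S, x < σ)
    (h2 : ∀ y < σ, ∃ x ∈ S, y < x) : IsSuccLimit σ := by
  refine ⟨?_, ?_⟩
  · intro hmin
    obtain ⟨x, hx⟩ := hne
    exact absurd (hmin (h x hx).le) (not_le.2 (h x hx))
  · intro y hy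
    obtain ⟨x, hx, hyx⟩ := h2 y hy.1
    exact hy.2 hyx (h x hx)

theorem eseq_of_sq {C : Idx → Set Idx} (hC : SqSeq C) : ESeq (accSet C) := by
  classical
  refine ⟨?_, ?_, ?_, ?_⟩
  · rintro b a ⟨h1, h2, h3, h4⟩
    exact hC.sub b h1 h3
  · rintro b a ⟨h1, h2, h3, h4, h5⟩
    have hab : a < b := hC.sub b h1 h3
    have hCa : C a = C b ∩ Iio a := (hC.acc b h1 a hab h4 h5).2
    ext x
    constructor
    · rintro ⟨g1, g2, g3, g4, g5⟩
      rw [hCa] at g3
      refine ⟨⟨h1, h2, g3.1, g4, ?_⟩, g3.2⟩
      intro c hc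
      obtain ⟨d, hd, hd2⟩ := g5 c hc
      rw [hCa] at hd
      exact ⟨d, hd.1, hd2⟩
    · rintro ⟨⟨_, _, g3, g4, g5⟩, g6⟩
      refine ⟨h4, ?_, ?_, g4, ?_⟩
      · rw [hCa]
        exact lt_of_le_of_lt (mk_le_mk_of_subset inter_subset_left) h2
      · rw [hCa]; exact ⟨g3, g6⟩
      · intro c hc
        obtain ⟨d, hd, hd2, hd3⟩ := g5 c hc
        refine ⟨d, ?_, hd2, hd3⟩
        rw [hCa]
        exact ⟨hd, hd3.trans g6⟩
  · intro b
    by_cases h : #(C b) < ℵ_ Ordinal.omega0
    · exact lt_of_le_of_lt (mk_le_mk_of_subset fun a ha => ha.2.2.1) h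
    · have : accSet C b = ∅ := by
        ext x
        constructor
        · intro hx
          exact absurd hx.2.1 h
        · intro hx
          exact absurd hx (notMem_empty _)
      rw [this, mk_eq_zero]
      exact aleph_pos _
  · intro b
    by_cases hlim : IsSuccLimit b
    swap
    · have hEe : ∀ a, a ∉ accSet C b := fun a ha => hlim ha.1
      by_cases hmin : IsMin b
      · left
        intro c hc
        exact absurd (hmin hc.le) (not_le.2 hc)
      · right
        have : ¬ IsSuccPrelimit b := fun h => hlim ⟨hmin, h⟩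
        unfold IsSuccPrelimit at this
        push Not at this
        obtain ⟨c, hc⟩ := this
        refine ⟨fun _ => c, monotone_const, fun _ => hc.1, ?_, fun a ha => absurd ha (hEe a)⟩
        intro x hx
        refine ⟨0, ?_⟩
        by_contra hcon
        exact hc.2 (not_le.1 hcon) hx
    by_cases hsmall : #(C b) < ℵ_ Ordinal.omega0
    swap
    · -- large order type: countable cofinality
      have hEe : ∀ a, a ∉ accSet C b := fun a ha => hsmall ha.2.1
      right
      have hf : ∀ n : ℕ, ∃ a < b, ℵ_ (n : Ordinal) ≤ #(C b ∩ Iio a : Set Idx) := by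
        intro n
        by_contra hcon
        push Not at hcon
        refine hsmall ?_
        have h1 : #(C b) ≤ succ (ℵ_ (n : Ordinal)) := by
          refine total_small (aleph0_le_aleph _) (A := C b) (fun i j => i.1 ≤ j.1)
            (fun i j => le_total _ _) ?_
          intro j
          have h2 : #{i : C b | i.1 ≤ j.1} ≤ #(insert j.1 (C b ∩ Iio j.1) : Set Idx) := by
            have hmem : ∀ i : {i : C b | i.1 ≤ j.1}, i.1.1 ∈ (insert j.1 (C b ∩ Iio j.1) : Set Idx) := by
              intro i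
              rcases (show i.1.1 ≤ j.1 from i.2).eq_or_lt with h | h
              · exact Or.inl h
              · exact Or.inr ⟨i.1.2, h⟩
            refine mk_le_of_injective (f := fun i => (⟨i.1.1, hmem i⟩ :
              (insert j.1 (C b ∩ Iio j.1) : Set Idx))) ?_
            intro x y hxy
            have h3 := congrArg (fun z : (insert j.1 (C b ∩ Iio j.1) : Set Idx) => z.1) hxy
            exact Subtype.ext (Subtype.ext h3)
          refine h2.trans (mk_insert_le.trans ?_)
          calc _ ≤ ℵ_ (n : Ordinal) + ℵ_ (n : Ordinal) :=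
                add_le_add (hcon j.1 (hC.sub b hlim j.2)).le
                  (one_le_aleph0.trans (aleph0_le_aleph _))
            _ = ℵ_ (n : Ordinal) := add_eq_self (aleph0_le_aleph _)
        refine lt_of_le_of_lt h1 ?_
        rw [succ_aleph_nat]
        exact aleph_lt_aleph.2 (Ordinal.natCast_lt_omega0 _)
      choose f hf1 hf2 using hf
      let s : ℕ → Idx := fun n => Nat.rec (f 0) (fun k x => max x (f (k + 1))) n
      have hs0 : s 0 = f 0 := rfl
      have hs1 : ∀ k, s (k + 1) = max (s k) (f (k + 1)) := fun k => rfl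
      have hfs : ∀ k, f k ≤ s k := by
        intro k
        cases k with
        | zero => exact le_rfl
        | succ k => rw [hs1]; exact le_max_right _ _
      have hsb : ∀ k, s k < b := by
        intro k
        induction k with
        | zero => exact hf1 0
        | succ k ih => rw [hs1]; exact max_lt ih (hf1 _)
      refine ⟨s, ?_, hsb, ?_, fun a ha => absurd ha (hEe a)⟩
      · refine monotone_nat_of_le_succ fun k => ?_
        rw [hs1]; exact le_max_left _ _
      · intro c hc
        refine Classical.byContradiction fun hcon => ?_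
        push Not at hcon
        obtain ⟨n, hn⟩ := exists_nat_of_lt (hC.ini b hlim c hc)
        have h1 := hf2 (n + 1)
        have h2 : #(C b ∩ Iio (f (n + 1)) : Set Idx) ≤ #(C b ∩ Iio c : Set Idx) := by
          refine mk_le_mk_of_subset ?_
          rintro x ⟨hx1, hx2⟩
          have hlt : f (n + 1) < c := lt_of_le_of_lt (hfs (n + 1)) (hcon (n + 1))
          exact ⟨hx1, mem_Iio.2 ((mem_Iio.1 hx2).trans hlt)⟩
        have h3 := h1.trans (h2.trans hn)
        rw [aleph_le_aleph] at h3
        have h4 : n + 1 ≤ n := by exact_mod_cast h3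
        omega
    · by_cases hunb : ∀ c < b, ∃ d ∈ accSet C b, c ≤ d
      · exact Or.inl hunb
      right
      push Not at hunb
      obtain ⟨c0, hc0, hc0'⟩ := hunb
      -- a starting point
      have hstart : ∃ t < b, ∀ a ∈ accSet C b, a = t ∨ (t ∈ accSet C b ∧ a < t) := by
        rcases (accSet C b).eq_empty_or_nonempty with he | hne
        · refine ⟨c0, hc0, ?_⟩
          intro a ha
          rw [he] at ha
          exact absurd ha (notMem_empty _)
        · obtain ⟨σ, h1, h2, h3⟩ := exists_lub (accSet C b) c0 (fun x hx => (hc0' x hx).le)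
          have hσb : σ < b := lt_of_le_of_lt h2 hc0
          by_cases hσ : σ ∈ accSet C b
          · refine ⟨σ, hσb, ?_⟩
            intro a ha
            rcases (h1 a ha).eq_or_lt with h | h
            · exact Or.inl h
            · exact Or.inr ⟨hσ, h⟩
          · exfalso
            have h1' : ∀ x ∈ accSet C b, x < σ := fun x hx =>
              lt_of_le_of_ne (h1 x hx) (fun h => hσ (h ▸ hx))
            have hlimσ := limit_of _ hne h1' h3
            have hac : ∀ c < σ, ∃ d ∈ C b, c < d ∧ d < σ := by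
              intro c hc
              obtain ⟨x, hx, hcx⟩ := h3 c hc
              exact ⟨x, hx.2.2.1, hcx, h1' x hx⟩
            exact hσ ⟨hlim, hsmall, (hC.acc b hlim σ hσb hlimσ hac).1, hlimσ, hac⟩
      obtain ⟨t, htb, ht⟩ := hstart
      have hnext : ∀ x : Idx, ∃ y, x < b → y ∈ C b ∧ x < y := by
        intro x
        by_cases hx : x < b
        · obtain ⟨y, hy, hxy⟩ := hC.unb b hlim x hx
          exact ⟨y, fun _ => ⟨hy, hxy⟩⟩
        · exact ⟨x, fun h => absurd h hx⟩
      choose g hg using hnext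
      let s : ℕ → Idx := fun n => Nat.rec t (fun _ x => g x) n
      have hs1 : ∀ k, s (k + 1) = g (s k) := fun k => rfl
      have hsb : ∀ k, s k < b := by
        intro k
        induction k with
        | zero => exact htb
        | succ k ih => rw [hs1]; exact hC.sub b hlim (hg _ ih).1
      have hslt : ∀ k, s k < s (k + 1) := fun k => (hg _ (hsb k)).2
      have hsC : ∀ k, s (k + 1) ∈ C b := fun k => (hg _ (hsb k)).1
      have hsm : StrictMono s := strictMono_nat_of_lt_succ hslt
      refine ⟨s, hsm.monotone, hsb, ?_, ht⟩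
      intro c hc
      refine Classical.byContradiction fun hcon => ?_
      push Not at hcon
      obtain ⟨σ, h1, h2, h3⟩ := exists_lub (range s) c (by
        rintro _ ⟨k, rfl⟩; exact (hcon k).le)
      have hσb : σ < b := lt_of_le_of_lt h2 hc
      have h1' : ∀ x ∈ range s, x < σ := by
        rintro _ ⟨k, rfl⟩
        exact lt_of_lt_of_le (hslt k) (h1 _ ⟨k + 1, rfl⟩)
      have hlimσ := limit_of (range s) ⟨s 0, ⟨0, rfl⟩⟩ h1' h3
      have hac : ∀ c < σ, ∃ d ∈ C b, c < d ∧ d < σ := by
        intro c hc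
        obtain ⟨_, ⟨k, rfl⟩, hcx⟩ := h3 c hc
        exact ⟨s (k + 1), hsC k, hcx.trans (hslt k), h1' _ ⟨k + 1, rfl⟩⟩
      have hσE : σ ∈ accSet C b :=
        ⟨hlim, hsmall, (hC.acc b hlim σ hσb hlimσ hac).1, hlimσ, hac⟩
      have h0 : s 0 < σ := h1' _ ⟨0, rfl⟩
      rcases ht σ hσE with h | ⟨_, h⟩
      · exact absurd h0 (by rw [h]; exact lt_irrefl _)
      · exact absurd (h0.trans h) (lt_irrefl _)

end Pool.Agent.H538R3.Ditor
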