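import Mathlib

set_option autoImplicit false

namespace Pool.Agent.H538R3.TypeDigraph

/-- time stamp of entry `i` of tuple `t` -/
def T (r t i : ℕ) : ℕ := r * t + (r + 1) * i

theorem T_inj {r t i t' i' : ℕ} (hi : i < r) (hi' : i' < r) (h : T r t i = T r t' i') :
    t = t' ∧ i = i' := by
  unfold T at h
  have hr : 0 < r := by omega
  have h1 : (r * t + (r + 1) * i) % r = i := by
    have : r * t + (r + 1) * i = i + r * (t + i) := by ring
    rw [this, Nat.add_mul_mod_self_left, Nat.mod_eq_of_lt hi]
  have h2 : (r * t' + (r + 1) * i') % r = i' := by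
    have : r * t' + (r + 1) * i' = i' + r * (t' + i') := by ring
    rw [this, Nat.add_mul_mod_self_left, Nat.mod_eq_of_lt hi']
  have h3 : i = i' := by rw [← h1, ← h2, h]
  subst h3
  have h4 : r * t = r * t' := by omega
  exact ⟨Nat.eq_of_mul_eq_mul_left hr h4, rfl⟩

theorem T_lt_right {r t i j : ℕ} (h : i < j) : T r t i < T r t j := by
  unfold T
  have : (r + 1) * i < (r + 1) * j := Nat.mul_lt_mul_of_pos_left h (by omega)
  omega

theorem T_lt_left {r t t' i : ℕ} (hr : 0 < r) (h : t < t') : T r t i < T r t' i := by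
  unfold T
  have : r * t < r * t' := Nat.mul_lt_mul_of_pos_left h hr
  omega

theorem T_succ_lt {r t i j : ℕ} (h : i < j) : T r (t + 1) i < T r t j := by
  unfold T
  have : (r + 1) * (i + 1) ≤ (r + 1) * j := Nat.mul_le_mul_left _ h
  have e1 : (r + 1) * (i + 1) = (r + 1) * i + r + 1 := by ring
  have e2 : r * (t + 1) = r * t + r := by ring
  omega

theorem T_last {r i j : ℕ} (hi : i < r) : T r 0 i < T r r j := by
  unfold T
  have h1 : (r + 1) * i ≤ (r + 1) * (r - 1) := Nat.mul_le_mul_left _ (by omega)
  obtain ⟨s, rfl⟩ : ∃ s, r = s + 1 := ⟨r - 1, by omega⟩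
  have e : (s + 1 + 1) * (s + 1 - 1) + 1 = (s + 1) * (s + 1) := by
    rw [Nat.add_sub_cancel]; ring
  omega

variable {J C : Type}

/-- `Good cN c0 m j x`: the `j` entries of `x` chosen so far can be continued, `m` more times, by
arbitrarily large entries, to a tuple of colour `c0`. -/
def Good [LT J] (cN : (ℕ → J) → C) (c0 : C) : ℕ → ℕ → (ℕ → J) → Prop
  | 0, _, x => cN x = c0
  | (m + 1), j, x => ∀ b : J, ∃ z, b < z ∧ Good cN c0 m (j + 1) (Function.update x j z)

theorem exists_good [LT J] (cN : (ℕ → J) → C)
    (hp : ∀ g : J → C, ∃ c0, ∀ b : J, ∃ z, b < z ∧ g z = c0) :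
    ∀ m j x, ∃ c0, Good cN c0 m j x := by
  intro m
  induction m with
  | zero => intro j x; exact ⟨cN x, rfl⟩
  | succ m ih =>
    intro j x
    choose g hg using fun z : J => ih (j + 1) (Function.update x j z)
    obtain ⟨c0, hc0⟩ := hp g
    refine ⟨c0, fun b => ?_⟩
    obtain ⟨z, hz, hgz⟩ := hc0 b
    exact ⟨z, hz, hgz ▸ hg z⟩

/-- the tuple `t` read off from `v`, cut after `j` entries -/
def seq (r : ℕ) (d : J) (v : ℕ → J) (t j : ℕ) : ℕ → J := fun i => if i < j then v (T r t i) else d

theorem build [LinearOrder J] (d : J) (cN : (ℕ → J) → C) (c0 : C) (r : ℕ)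
    (h0 : Good cN c0 r 0 (fun _ => d)) (hnm : ∀ b : J, ∃ z, b < z) :
    ∀ s : ℕ, ∃ v : ℕ → J, (∀ a b, a < b → b < s → v a < v b) ∧
      ∀ t j, j ≤ r → (∀ i < j, T r t i < s) → Good cN c0 (r - j) j (seq r d v t j) := by
  intro s
  induction s with
  | zero =>
    refine ⟨fun _ => d, by intro a b _ hb; omega, ?_⟩
    intro t j hj hi
    have hj0 : j = 0 := by
      by_contra hne
      exact absurd (hi 0 (Nat.pos_of_ne_zero hne)) (by omega)
    subst hj0
    have : seq r d (fun _ => d) t 0 = fun _ => d := by
      funext i; simp [seq]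
    rw [this]; exact h0
  | succ s ih =>
    obtain ⟨v, hv, hG⟩ := ih
    have hseq : ∀ z t j, (∀ i < j, T r t i < s) →
        seq r d (Function.update v s z) t j = seq r d v t j := by
      intro z t j h
      funext i
      unfold seq
      by_cases hi : i < j
      · simp only [hi, if_true]
        rw [Function.update_of_ne (by have := h i hi; omega)]
      · simp [hi]
    have hmono : ∀ z, v (s - 1) < z → ∀ a b, a < b → b < s + 1 →
        Function.update v s z a < Function.update v s z b := by
      intro z hz a b hab hb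
      rw [Function.update_of_ne (by omega : a ≠ s)]
      by_cases hbs : b = s
      · subst hbs
        rw [Function.update_self]
        by_cases ha : a = b - 1
        · rw [ha]; exact hz
        · exact lt_trans (hv a (b - 1) (by omega) (by omega)) hz
      · rw [Function.update_of_ne hbs]
        exact hv a b hab (by omega)
    by_cases hex : ∃ t j, j < r ∧ T r t j = s
    · obtain ⟨t, j, hj, hT⟩ := hex
      have hg := hG t j hj.le (fun i hi => hT ▸ T_lt_right hi)
      obtain ⟨m, hm⟩ : ∃ m, r - j = m + 1 := ⟨r - j - 1, by omega⟩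
      rw [hm] at hg
      obtain ⟨z, hz, hgz⟩ := hg (v (s - 1))
      refine ⟨Function.update v s z, hmono z hz, ?_⟩
      intro t' j' hj' hi'
      by_cases hall : ∀ i < j', T r t' i < s
      · rw [hseq z t' j' hall]; exact hG t' j' hj' hall
      · push Not at hall
        obtain ⟨i, hi, hge⟩ := hall
        have hTi : T r t' i = s := by have := hi' i hi; omega
        obtain ⟨h1, h2⟩ := T_inj (lt_of_lt_of_le hi hj') hj (hTi.trans hT.symm)
        subst h1; subst h2
        have hj'e : j' = i + 1 := by
          by_contra hne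
          have h3 := hi' (i + 1) (by omega)
          have h4 : T r t' i < T r t' (i + 1) := T_lt_right (by omega)
          omega
        subst hj'e
        have hupd : seq r d (Function.update v s z) t' (i + 1)
            = Function.update (seq r d v t' i) i z := by
          funext l
          unfold seq
          by_cases hl : l = i
          · subst hl; simp [hTi]
          · rw [Function.update_of_ne hl]
            by_cases hl2 : l < i
            · have h5 : T r t' l < T r t' i := T_lt_right hl2
              have h6 : T r t' l ≠ s := by omega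
              rw [if_pos (by omega : l < i + 1), if_pos hl2, Function.update_of_ne h6]
            · rw [if_neg (by omega), if_neg hl2]
        rw [hupd]
        have : r - (i + 1) = m := by omega
        rw [this]
        exact hgz
    · obtain ⟨z, hz⟩ := hnm (v (s - 1))
      refine ⟨Function.update v s z, hmono z hz, ?_⟩
      intro t' j' hj' hi'
      have hall : ∀ i < j', T r t' i < s := by
        intro i hi
        have h1 := hi' i hi
        have h2 : T r t' i ≠ s := fun h => hex ⟨t', i, lt_of_lt_of_le hi hj', h⟩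
        omega
      rw [hseq z t' j' hall]; exact hG t' j' hj' hall

/-- the adjacency -/
def Adj {J : Type} [LinearOrder J] {r : ℕ} (x y : Fin r → J) : Prop :=
  StrictMono x ∧ StrictMono y ∧ (∀ i j, i < j → y i < x j) ∧
    ((∀ j, x j < y j) ∨ (∀ i j, y i < x j))

/-- monochromatic directed cycle on `r + 1` vertices -/
theorem exists_mono_cycle [LinearOrder J] (r : ℕ) (hr : 0 < r) (d : J)
    (hnm : ∀ b : J, ∃ z, b < z)
    (hp : ∀ g : J → C, ∃ c0, ∀ b : J, ∃ z, b < z ∧ g z = c0) (c : (Fin r → J) → C) :
    ∃ f : Fin (r + 1) → (Fin r → J), Function.Injective f ∧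
      (∀ i : Fin (r + 1), Adj (f i) (f (i + 1))) ∧ ∀ i j, c (f i) = c (f j) := by
  set cN : (ℕ → J) → C := fun x => c (fun i => x i) with hcN
  obtain ⟨c0, hc0⟩ := exists_good cN hp r 0 (fun _ => d)
  obtain ⟨v, hv, hG⟩ := build d cN c0 r hc0 hnm (T r r r + 1)
  have hle : ∀ t i, t ≤ r → i < r → T r t i < T r r r + 1 := by
    intro t i ht hi
    have h1 : T r t i < T r t r := T_lt_right hi
    have h2 : T r t r ≤ T r r r := by
      rcases Nat.lt_or_ge t r with h | h
      · exact (T_lt_left hr h).le
      · rw [le_antisymm ht h]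
    omega
  have hvT : ∀ t i t' i', t' ≤ r → i' < r → T r t i < T r t' i' →
      v (T r t i) < v (T r t' i') := by
    intro t i t' i' ht hi h
    exact hv _ _ h (hle t' i' ht hi)
  refine ⟨fun t i => v (T r t i), ?_, ?_, ?_⟩
  · intro t t' htt
    have h0 := congrFun htt ⟨0, hr⟩
    simp only at h0
    rcases lt_trichotomy (T r t 0) (T r t' 0) with h | h | h
    · exact absurd h0 (ne_of_lt (hvT _ _ _ _ (by omega) hr h))
    · exact Fin.ext (T_inj hr hr h).1
    · exact absurd h0 (ne_of_gt (hvT _ _ _ _ (by omega) hr h))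
  · intro t
    have hsm : ∀ t : Fin (r + 1), StrictMono (fun i : Fin r => v (T r t i)) := by
      intro t i j hij
      exact hvT _ _ _ _ (by omega) j.2 (T_lt_right hij)
    refine ⟨hsm t, hsm (t + 1), ?_⟩
    by_cases ht : t = Fin.last r
    · subst ht
      have hz : ((Fin.last r + 1 : Fin (r + 1)) : ℕ) = 0 := by simp
      simp only [hz, Fin.val_last]
      have hd : ∀ i j : Fin r, v (T r 0 i) < v (T r r j) := fun i j =>
        hvT _ _ _ _ le_rfl j.2 (T_last i.2)
      exact ⟨fun i j _ => hd i j, Or.inr hd⟩
    · have hz : ((t + 1 : Fin (r + 1)) : ℕ) = t + 1 := by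
        have hlt : t < Fin.last r := Fin.lt_last_iff_ne_last.mpr ht
        rw [Fin.val_add_one_of_lt hlt]
      have htr : (t : ℕ) + 1 ≤ r := by
        have : (t : ℕ) ≠ r := fun h => ht (Fin.ext h)
        omega
      simp only [hz]
      refine ⟨fun i j hij => hvT _ _ _ _ (by omega) j.2 (T_succ_lt hij), Or.inl fun j => ?_⟩
      exact hvT _ _ _ _ htr j.2 (T_lt_left hr (by omega))
  · intro t t'
    have key : ∀ t : Fin (r + 1), c (fun i : Fin r => v (T r t i)) = c0 := by
      intro t
      have h1 := hG t r le_rfl (fun i hi => hle t i (by omega) hi)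
      rw [Nat.sub_self] at h1
      have h2 : cN (seq r d v t r) = c0 := h1
      rw [hcN] at h2
      have h3 : (fun i : Fin r => seq r d v t r i) = fun i : Fin r => v (T r t i) := by
        funext i; simp [seq]
      rw [← h3]; exact h2
    rw [key t, key t']

/-- no short directed cycles -/
theorem no_short_cycle [LinearOrder J] (r k : ℕ) (hk : k + 1 ≤ r) (f : Fin (k + 1) → (Fin r → J))
    (hadj : ∀ i : Fin (k + 1), Adj (f i) (f (i + 1))) : False := by
  set g : ℕ → (Fin r → J) := fun t => f (Fin.ofNat (k + 1) t) with hg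
  have hadj' : ∀ t, Adj (g t) (g (t + 1)) := by
    intro t
    have := hadj (Fin.ofNat (k + 1) t)
    have e : Fin.ofNat (k + 1) t + 1 = Fin.ofNat (k + 1) (t + 1) := by
      apply Fin.ext
      simp [Fin.val_add, Fin.ofNat]
    rw [e] at this
    exact this
  have hper : ∀ t, g (t + (k + 1)) = g t := by
    intro t
    have e : Fin.ofNat (k + 1) (t + (k + 1)) = Fin.ofNat (k + 1) t := by
      apply Fin.ext
      simp [Fin.ofNat]
    simp only [hg, e]
  by_cases hall : ∀ t, ∀ j, g t j < g (t + 1) j
  · have hm : StrictMono (fun t => g t ⟨0, by omega⟩) :=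
      strictMono_nat_of_lt_succ (fun t => hall t _)
    have h1 : g 0 ⟨0, by omega⟩ < g (0 + (k + 1)) ⟨0, by omega⟩ := hm (by omega)
    rw [hper 0] at h1
    exact lt_irrefl _ h1
  · push Not at hall
    obtain ⟨t0, j0, hj0⟩ := hall
    have hdown : ∀ i j, g (t0 + 1) i < g t0 j := by
      rcases (hadj' t0).2.2.2 with h | h
      · exact absurd (h j0) (not_lt.mpr hj0)
      · exact h
    have hchain : ∀ s (hs : s ≤ k), g (t0 + 1 + s) ⟨r - 1 - s, by omega⟩ ≤
        g (t0 + 1) ⟨r - 1, by omega⟩ := by
      intro s
      induction s with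
      | zero => intro _; exact le_rfl
      | succ s ih =>
        intro hs
        refine le_trans (le_of_lt ?_) (ih (by omega))
        have h := (hadj' (t0 + 1 + s)).2.2.1 ⟨r - 1 - (s + 1), by omega⟩ ⟨r - 1 - s, by omega⟩
          (by rw [Fin.lt_def]; simp only; omega)
        exact h
    have h1 := hchain k le_rfl
    have h2 : g (t0 + 1 + k) = g t0 := by
      rw [show t0 + 1 + k = t0 + (k + 1) by ring]; exact hper t0
    rw [h2] at h1
    exact absurd (hdown _ _) (not_lt.mpr h1)

end Pool.Agent.H538R3.TypeDigraph
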